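import Mathlib

/-!
# Internal graph products: universal property, retractions, quotients
-/

set_option autoImplicit false

namespace Pool.Agent.D0H25.GK

open Monoid

variable {G V : Type} [Group G]

/-- the commutators of the elements of subgroups which are joined by an edge, in the free product of
the subgroups -/
def rel (Λ : SimpleGraph V) (A : V → Subgroup G) : Set (CoprodI fun v => A v) :=
  {r | ∃ (v w : V) (a : A v) (b : A w), Λ.Adj v w ∧
    r = (CoprodI.of (M := fun v => A v) (i := v) a) * (CoprodI.of (M := fun v => A v) (i := w) b) *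
      (CoprodI.of (M := fun v => A v) (i := v) a)⁻¹ * (CoprodI.of (M := fun v => A v) (i := w) b)⁻¹}

/-- `N` is the internal graph product of the subgroups `A v` over the graph `Λ`: it is generated by
them, and all relations between their elements follow from the relations of the `A v` and the
commutation relations for the edges. -/
structure IsGraphProd (N : Subgroup G) (Λ : SimpleGraph V) (A : V → Subgroup G) : Prop where
  sup : ⨆ v, A v = N
  ker : (CoprodI.lift fun v => (A v).subtype).ker = Subgroup.normalClosure (rel Λ A)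

/-- homomorphisms on a supremum are determined on the parts -/
theorem sup_hom_ext {I H : Type} [Group H] {B : I → Subgroup G} {N : Subgroup G} (hN : ⨆ i, B i = N)
    (f g : N →* H) (h : ∀ (i : I) (x : G) (hx : x ∈ B i) (hx' : x ∈ N), f ⟨x, hx'⟩ = g ⟨x, hx'⟩) :
    f = g := by
  have h1 : N ≤ (f.eqLocus g).map N.subtype := by
    conv_lhs => rw [← hN]
    refine iSup_le fun i x hx => ?_
    have hx' : x ∈ N := hN ▸ (le_iSup B i) hx
    exact ⟨⟨x, hx'⟩, h i x hx hx', rfl⟩
  ext x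
  obtain ⟨y, hy, hyx⟩ := h1 x.2
  have : y = x := Subtype.ext hyx
  exact this ▸ hy

section basic

variable {N : Subgroup G} {Λ : SimpleGraph V} {A : V → Subgroup G}

theorem IsGraphProd.le (h : IsGraphProd N Λ A) (v : V) : A v ≤ N := h.sup ▸ le_iSup A v

theorem IsGraphProd.comm (h : IsGraphProd N Λ A) {v w : V} (hvw : Λ.Adj v w) {a b : G}
    (ha : a ∈ A v) (hb : b ∈ A w) : a * b = b * a := by
  have h1 : (CoprodI.of (M := fun v => A v) (i := v) ⟨a, ha⟩) *
      (CoprodI.of (M := fun v => A v) (i := w) ⟨b, hb⟩) *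
      (CoprodI.of (M := fun v => A v) (i := v) ⟨a, ha⟩)⁻¹ *
      (CoprodI.of (M := fun v => A v) (i := w) ⟨b, hb⟩)⁻¹ ∈
      (CoprodI.lift fun v => (A v).subtype).ker := by
    rw [h.ker]
    exact Subgroup.subset_normalClosure ⟨v, w, ⟨a, ha⟩, ⟨b, hb⟩, hvw, rfl⟩
  rw [MonoidHom.mem_ker, map_mul, map_mul, map_mul, map_inv, map_inv, CoprodI.lift_of,
    CoprodI.lift_of] at h1
  have h2 : a * b * a⁻¹ * b⁻¹ = 1 := h1
  calc a * b = a * b * a⁻¹ * b⁻¹ * (b * a) := by group
    _ = b * a := by rw [h2, one_mul]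

theorem lift_mem (hN : ⨆ v, A v = N) (x : CoprodI fun v => A v) :
    CoprodI.lift (fun v => (A v).subtype) x ∈ N := by
  have h := CoprodI.lift_range_le (fun v => A v) (fun v => (A v).subtype) (s := N) (fun v => by
    rw [Subgroup.range_subtype, ← hN]
    exact le_iSup A v)
  exact h ⟨x, rfl⟩

/-- the map from the free product -/
noncomputable def pj (hN : ⨆ v, A v = N) : (CoprodI fun v => A v) →* N :=
  (CoprodI.lift fun v => (A v).subtype).codRestrict N (lift_mem hN)

theorem pj_coe (hN : ⨆ v, A v = N) (x : CoprodI fun v => A v) :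
    (pj hN x : G) = CoprodI.lift (fun v => (A v).subtype) x := rfl

theorem pj_surj (hN : ⨆ v, A v = N) : Function.Surjective (pj hN) := by
  have h1 : ⨆ v, A v ≤ (CoprodI.lift fun v => (A v).subtype).range := by
    refine iSup_le fun v a ha => ?_
    exact ⟨CoprodI.of (M := fun v => A v) (i := v) ⟨a, ha⟩, by rw [CoprodI.lift_of]; rfl⟩
  rw [hN] at h1
  intro n
  obtain ⟨x, hx⟩ := h1 n.2
  exact ⟨x, Subtype.ext hx⟩

theorem IsGraphProd.exists_hom (h : IsGraphProd N Λ A) {H : Type} [Group H] (φ : ∀ v, A v →* H)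
    (hφ : ∀ v w, Λ.Adj v w → ∀ (a : A v) (b : A w), φ v a * φ w b = φ w b * φ v a) :
    ∃ Φ : N →* H, ∀ (v : V) (a : G) (ha : a ∈ A v) (ha' : a ∈ N), Φ ⟨a, ha'⟩ = φ v ⟨a, ha⟩ := by
  have hk : (pj h.sup).ker ≤ (CoprodI.lift φ).ker := by
    intro x hx
    have h1 : x ∈ (CoprodI.lift fun v => (A v).subtype).ker := by
      rw [MonoidHom.mem_ker] at hx ⊢
      rw [← pj_coe h.sup, hx]
      rfl
    rw [h.ker] at h1
    refine Subgroup.normalClosure_le_normal ?_ h1
    rintro _ ⟨v, w, a, b, hvw, rfl⟩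
    rw [SetLike.mem_coe, MonoidHom.mem_ker, map_mul, map_mul, map_mul, map_inv, map_inv,
      CoprodI.lift_of, CoprodI.lift_of, hφ v w hvw a b]
    group
  refine ⟨(pj h.sup).liftOfSurjective (pj_surj h.sup) ⟨CoprodI.lift φ, hk⟩, ?_⟩
  intro v a ha ha'
  have h1 : (⟨a, ha'⟩ : N) = pj h.sup (CoprodI.of (M := fun v => A v) (i := v) ⟨a, ha⟩) := by
    apply Subtype.ext
    rw [pj_coe, CoprodI.lift_of]
    rfl
  rw [h1]
  have h2 := MonoidHom.liftOfRightInverse_comp_apply (pj h.sup) _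
    (Function.rightInverse_surjInv (pj_surj h.sup)) ⟨CoprodI.lift φ, hk⟩
    (CoprodI.of (M := fun v => A v) (i := v) ⟨a, ha⟩)
  refine h2.trans ?_
  show CoprodI.lift φ _ = _
  rw [CoprodI.lift_of]

/-- the universal property characterizes graph products -/
theorem of_univ (hN : ⨆ v, A v = N)
    (hc : ∀ v w, Λ.Adj v w → ∀ a ∈ A v, ∀ b ∈ A w, a * b = b * a)
    (hu : ∀ (H : Type) [Group H] (φ : ∀ v, A v →* H),
      (∀ v w, Λ.Adj v w → ∀ (a : A v) (b : A w), φ v a * φ w b = φ w b * φ v a) →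
      ∃ Φ : N →* H, ∀ (v : V) (a : G) (ha : a ∈ A v) (ha' : a ∈ N), Φ ⟨a, ha'⟩ = φ v ⟨a, ha⟩) :
    IsGraphProd N Λ A := by
  refine ⟨hN, le_antisymm ?_ ?_⟩
  · obtain ⟨Φ, hΦ⟩ := hu (CoprodI (fun v => A v) ⧸ Subgroup.normalClosure (rel Λ A))
      (fun v => (QuotientGroup.mk' _).comp (CoprodI.of (M := fun v => A v) (i := v))) (by
        intro v w hvw a b
        have h1 : (CoprodI.of (M := fun v => A v) (i := v) a) *
            (CoprodI.of (M := fun v => A v) (i := w) b) *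
            (CoprodI.of (M := fun v => A v) (i := v) a)⁻¹ *
            (CoprodI.of (M := fun v => A v) (i := w) b)⁻¹ ∈ Subgroup.normalClosure (rel Λ A) :=
          Subgroup.subset_normalClosure ⟨v, w, a, b, hvw, rfl⟩
        have h2 := (QuotientGroup.eq_one_iff _).2 h1
        rw [QuotientGroup.mk_mul, QuotientGroup.mk_mul, QuotientGroup.mk_mul, QuotientGroup.mk_inv,
          QuotientGroup.mk_inv] at h2
        show (_ : CoprodI (fun v => A v) ⧸ Subgroup.normalClosure (rel Λ A)) = _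
        exact (mul_inv_eq_iff_eq_mul.1 (mul_inv_eq_one.1 h2)))
    have h3 : QuotientGroup.mk' (Subgroup.normalClosure (rel Λ A)) = Φ.comp (pj hN) := by
      apply CoprodI.ext_hom
      intro v
      ext a
      have h4 : pj hN (CoprodI.of (M := fun v => A v) (i := v) a) =
          ⟨a, hN ▸ (le_iSup A v) a.2⟩ := by
        apply Subtype.ext
        rw [pj_coe, CoprodI.lift_of]
        rfl
      show _ = Φ (pj hN (CoprodI.of (M := fun v => A v) (i := v) a))
      rw [h4, hΦ v a a.2]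
    intro x hx
    have h5 : pj hN x = 1 := by
      apply Subtype.ext
      rw [pj_coe]
      exact hx
    have h6 := DFunLike.congr_fun h3 x
    rw [MonoidHom.comp_apply, h5, map_one] at h6
    exact (QuotientGroup.eq_one_iff _).1 h6
  · apply Subgroup.normalClosure_le_normal
    rintro _ ⟨v, w, a, b, hvw, rfl⟩
    rw [SetLike.mem_coe, MonoidHom.mem_ker, map_mul, map_mul, map_mul, map_inv, map_inv,
      CoprodI.lift_of, CoprodI.lift_of]
    show (a : G) * b * (a : G)⁻¹ * (b : G)⁻¹ = 1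
    rw [hc v w hvw a a.2 b b.2]
    group

end basic

/-! ### parabolic subgroups and retractions -/

/-- the subgroup generated by the `A w` with `w ∈ W` -/
def Pb (A : V → Subgroup G) (W : Set V) : Subgroup G := ⨆ w : W, A w

theorem le_Pb {A : V → Subgroup G} {W : Set V} {w : V} (hw : w ∈ W) : A w ≤ Pb A W :=
  le_iSup (fun w : W => A w) ⟨w, hw⟩

section retr

variable {N : Subgroup G} {Λ : SimpleGraph V} {A : V → Subgroup G}

theorem IsGraphProd.Pb_le (h : IsGraphProd N Λ A) (W : Set V) : Pb A W ≤ N :=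
  iSup_le fun w => h.le w

theorem IsGraphProd.exists_retr (h : IsGraphProd N Λ A) (W : Set V) :
    ∃ ρ : N →* Pb A W, (∀ (v : V) (hv : v ∈ W) (a : G) (ha : a ∈ A v) (ha' : a ∈ N),
      ρ ⟨a, ha'⟩ = ⟨a, le_Pb hv ha⟩) ∧
      ∀ (v : V) (_ : v ∉ W) (a : G) (_ : a ∈ A v) (ha' : a ∈ N), ρ ⟨a, ha'⟩ = 1 := by
  classical
  obtain ⟨ρ, hρ⟩ := h.exists_hom (H := Pb A W)
    (fun v => if hv : v ∈ W then Subgroup.inclusion (le_Pb hv) else 1) (by
      intro v w hvw a b
      by_cases hv : v ∈ W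
      · by_cases hw : w ∈ W
        · rw [dif_pos hv, dif_pos hw]
          exact Subtype.ext (h.comm hvw a.2 b.2)
        · rw [dif_neg hw, MonoidHom.one_apply, one_mul, mul_one]
      · rw [dif_neg hv, MonoidHom.one_apply, one_mul, mul_one])
  refine ⟨ρ, ?_, ?_⟩
  · intro v hv a ha ha'
    rw [hρ v a ha ha', dif_pos hv]
    rfl
  · intro v hv a ha ha'
    rw [hρ v a ha ha', dif_neg hv]
    rfl

/-- the retraction to the parabolic subgroup of `W` -/
noncomputable def IsGraphProd.ret (h : IsGraphProd N Λ A) (W : Set V) : N →* Pb A W :=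
  (h.exists_retr W).choose

theorem IsGraphProd.ret_in (h : IsGraphProd N Λ A) {W : Set V} {v : V} (hv : v ∈ W) {a : G}
    (ha : a ∈ A v) (ha' : a ∈ N) : h.ret W ⟨a, ha'⟩ = ⟨a, le_Pb hv ha⟩ :=
  (h.exists_retr W).choose_spec.1 v hv a ha ha'

theorem IsGraphProd.ret_out (h : IsGraphProd N Λ A) {W : Set V} {v : V} (hv : v ∉ W) {a : G}
    (ha : a ∈ A v) (ha' : a ∈ N) : h.ret W ⟨a, ha'⟩ = 1 :=
  (h.exists_retr W).choose_spec.2 v hv a ha ha'

theorem IsGraphProd.ret_Pb (h : IsGraphProd N Λ A) {W : Set V} {a : G} (ha : a ∈ Pb A W)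
    (ha' : a ∈ N) : h.ret W ⟨a, ha'⟩ = ⟨a, ha⟩ := by
  have h1 : (h.ret W).comp (Subgroup.inclusion (h.Pb_le W)) = MonoidHom.id _ := by
    refine sup_hom_ext (B := fun w : W => A w) rfl _ _ ?_
    intro w x hx hx'
    exact h.ret_in w.2 hx _
  exact DFunLike.congr_fun h1 ⟨a, ha⟩

/-- parabolic subgroups are graph products -/
theorem IsGraphProd.sub (h : IsGraphProd N Λ A) (W : Set V) :
    IsGraphProd (Pb A W) (Λ.induce W) (fun w : W => A w) := by
  classical
  refine of_univ rfl (fun v w hvw a ha b hb => h.comm hvw ha hb) ?_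
  intro H _ φ hφ
  obtain ⟨Φ, hΦ⟩ := h.exists_hom (H := H) (fun v => if hv : v ∈ W then φ ⟨v, hv⟩ else 1) (by
      intro v w hvw a b
      by_cases hv : v ∈ W
      · by_cases hw : w ∈ W
        · rw [dif_pos hv, dif_pos hw]
          exact hφ ⟨v, hv⟩ ⟨w, hw⟩ hvw a b
        · rw [dif_neg hw, MonoidHom.one_apply, one_mul, mul_one]
      · rw [dif_neg hv, MonoidHom.one_apply, one_mul, mul_one])
  refine ⟨Φ.comp (Subgroup.inclusion (h.Pb_le W)), ?_⟩
  intro w a ha ha'
  have h1 := hΦ w a ha (h.le w ha)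
  rw [dif_pos w.2] at h1
  exact h1

end retr

/-! ### the normal closure of some of the factors -/

/-- the normal closure of the `A u` with `u ∈ U` -/
def Nc (A : V → Subgroup G) (U : Set V) : Subgroup G :=
  Subgroup.normalClosure {x | ∃ u ∈ U, x ∈ A u}

instance (A : V → Subgroup G) (U : Set V) : (Nc A U).Normal :=
  Subgroup.normalClosure_normal

/-- conjugation permutes the `N`-classes of the `A u`, `u ∈ U` -/
def Inv (N : Subgroup G) (A : V → Subgroup G) (U : Set V) : Prop :=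
  ∀ u ∈ U, ∀ g : G, ∃ w ∈ U, ∃ n ∈ N, ∀ x, x ∈ A u ↔ n * (g * x * g⁻¹) * n⁻¹ ∈ A w

/-- the subgroup generated by the conjugates under `N` of the `A u` with `u ∈ U`; if `A u ≤ N` this
is their normal closure in `N` -/
def nc (N : Subgroup G) (A : V → Subgroup G) (U : Set V) : Subgroup G :=
  Subgroup.closure {x | ∃ n ∈ N, ∃ u ∈ U, ∃ a ∈ A u, x = n * a * n⁻¹}

/-- the normal closure in `N` is invariant -/
def InvW (N : Subgroup G) (A : V → Subgroup G) (U : Set V) : Prop :=
  ∀ u ∈ U, ∀ g : G, ∀ a ∈ A u, g * a * g⁻¹ ∈ nc N A U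

section nc

variable {N : Subgroup G} {Λ : SimpleGraph V} {A : V → Subgroup G} {U : Set V}

theorem mem_nc {n : G} (hn : n ∈ N) {u : V} (hu : u ∈ U) {a : G} (ha : a ∈ A u) :
    n * a * n⁻¹ ∈ nc N A U := Subgroup.subset_closure ⟨n, hn, u, hu, a, ha, rfl⟩

theorem Inv.toW (hU : Inv N A U) : InvW N A U := by
  intro u hu g a ha
  obtain ⟨w, hw, n, hn, h1⟩ := hU u hu g
  have h2 := mem_nc (N := N) (N.inv_mem hn) hw ((h1 a).1 ha)
  have h3 : n⁻¹ * (n * (g * a * g⁻¹) * n⁻¹) * n⁻¹⁻¹ = g * a * g⁻¹ := by group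
  rwa [h3] at h2

theorem nc_le_Nc : nc N A U ≤ Nc A U := by
  unfold nc
  rw [Subgroup.closure_le]
  rintro x ⟨n, -, u, hu, a, ha, rfl⟩
  exact (Subgroup.normalClosure_normal (s := {x | ∃ u ∈ U, x ∈ A u})).conj_mem a
    (Subgroup.subset_normalClosure ⟨u, hu, ha⟩) n

theorem nc_mono {U' : Set V} (h : U ⊆ U') : nc N A U ≤ nc N A U' := by
  unfold nc
  rw [Subgroup.closure_le]
  rintro x ⟨n, hn, u, hu, a, ha, rfl⟩
  exact mem_nc hn (h hu) ha

theorem le_Nc {u : V} (hu : u ∈ U) : A u ≤ Nc A U := fun _ hx =>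
  Subgroup.subset_normalClosure ⟨u, hu, hx⟩

theorem Nc_le [N.Normal] (h : ∀ v, A v ≤ N) : Nc A U ≤ N := by
  apply Subgroup.normalClosure_le_normal
  rintro x ⟨u, -, hx⟩
  exact h u hx

/-- the normal closure is generated by the conjugates under `N` -/
theorem Nc_eq (hU : InvW N A U) : Nc A U = nc N A U := by
  apply le_antisymm _ nc_le_Nc
  unfold Nc Subgroup.normalClosure
  rw [Subgroup.closure_le]
  intro x hx
  rw [Group.mem_conjugatesOfSet_iff] at hx
  obtain ⟨a, ⟨u, hu, ha⟩, hax⟩ := hx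
  obtain ⟨g, rfl⟩ := isConj_iff.1 hax
  exact hU u hu g a ha

/-- the normal closure as a subgroup of any subgroup which contains the conjugates under `N` -/
theorem Nc_induction (hU : InvW N A U) {S : Subgroup G}
    (hS : ∀ n ∈ N, ∀ u ∈ U, ∀ a ∈ A u, n * a * n⁻¹ ∈ S) : Nc A U ≤ S := by
  rw [Nc_eq hU]
  unfold nc
  rw [Subgroup.closure_le]
  rintro x ⟨n, hn, u, hu, a, ha, rfl⟩
  exact hS n hn u hu a ha

theorem IsGraphProd.ret_Nc (h : IsGraphProd N Λ A) (hU : InvW N A U) {W : Set V}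
    (hW : ∀ u ∈ U, u ∉ W) {x : G} (hx : x ∈ Nc A U) (hx' : x ∈ N) : h.ret W ⟨x, hx'⟩ = 1 := by
  have h1 : Nc A U ≤ (h.ret W).ker.map N.subtype := by
    refine Nc_induction hU ?_
    intro n hn u hu a ha
    refine ⟨⟨n, hn⟩ * ⟨a, h.le u ha⟩ * ⟨n, hn⟩⁻¹, ?_, rfl⟩
    rw [SetLike.mem_coe, MonoidHom.mem_ker, map_mul, map_mul, h.ret_out (hW u hu) ha, mul_one,
      map_inv, mul_inv_cancel]
  obtain ⟨y, hy, hyx⟩ := h1 hx
  have : y = ⟨x, hx'⟩ := Subtype.ext hyx
  exact this ▸ hy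

theorem IsGraphProd.mk_ret (h : IsGraphProd N Λ A) {n : G} (hn : n ∈ N) :
    QuotientGroup.mk' (Nc A U) (h.ret Uᶜ ⟨n, hn⟩ : G) = QuotientGroup.mk' (Nc A U) n := by
  have h1 : ((QuotientGroup.mk' (Nc A U)).comp (Pb A Uᶜ).subtype).comp (h.ret Uᶜ) =
      (QuotientGroup.mk' (Nc A U)).comp N.subtype := by
    refine sup_hom_ext h.sup _ _ ?_
    intro v x hx hx'
    by_cases hv : v ∈ U
    · have h2 := h.ret_out (W := Uᶜ) (v := v) (fun h => h hv) hx hx'
      show QuotientGroup.mk' (Nc A U) (h.ret Uᶜ ⟨x, hx'⟩ : G) = QuotientGroup.mk' (Nc A U) x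
      rw [h2]
      exact ((QuotientGroup.eq_one_iff _).2 (le_Nc hv hx)).symm
    · have h2 := h.ret_in (W := Uᶜ) (v := v) hv hx hx'
      show QuotientGroup.mk' (Nc A U) (h.ret Uᶜ ⟨x, hx'⟩ : G) = QuotientGroup.mk' (Nc A U) x
      rw [h2]
  exact DFunLike.congr_fun h1 ⟨n, hn⟩

theorem IsGraphProd.mem_Nc_iff (h : IsGraphProd N Λ A) (hU : InvW N A U) {n : G} (hn : n ∈ N) :
    n ∈ Nc A U ↔ h.ret Uᶜ ⟨n, hn⟩ = 1 := by
  constructor
  · intro h1
    exact h.ret_Nc hU (fun u hu hu' => (hu' : u ∉ U) hu) h1 hn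
  · intro h1
    have h2 := h.mk_ret (U := U) hn
    rw [h1] at h2
    exact (QuotientGroup.eq_one_iff _).1 h2.symm

/-- the quotient by the normal closure is the graph product of the other factors -/
theorem IsGraphProd.quot (h : IsGraphProd N Λ A) (hU : InvW N A U) :
    IsGraphProd (N.map (QuotientGroup.mk' (Nc A U))) (Λ.induce Uᶜ)
      (fun w : (Uᶜ : Set V) => (A w).map (QuotientGroup.mk' (Nc A U))) := by
  classical
  refine of_univ ?_ ?_ ?_
  · rw [← h.sup, Subgroup.map_iSup]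
    apply le_antisymm
    · exact iSup_le fun w => le_iSup (fun v => (A v).map (QuotientGroup.mk' (Nc A U))) w
    · refine iSup_le fun v => ?_
      by_cases hv : v ∈ U
      · rintro _ ⟨x, hx, rfl⟩
        have : QuotientGroup.mk' (Nc A U) x = 1 := (QuotientGroup.eq_one_iff _).2 (le_Nc hv hx)
        rw [this]
        exact Subgroup.one_mem _
      · exact le_iSup (fun w : (Uᶜ : Set V) => (A w).map (QuotientGroup.mk' (Nc A U))) ⟨v, hv⟩
  · rintro v w hvw _ ⟨a, ha, rfl⟩ _ ⟨b, hb, rfl⟩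
    rw [← map_mul, ← map_mul, h.comm hvw ha hb]
  · intro H _ φ hφ
    obtain ⟨Θ, hΘ⟩ := h.exists_hom (H := H) (fun v => if hv : v ∉ U then
        (φ ⟨v, hv⟩).comp ((QuotientGroup.mk' (Nc A U)).subgroupMap (A v)) else 1) (by
      intro v w hvw a b
      by_cases hv : v ∉ U
      · by_cases hw : w ∉ U
        · rw [dif_pos hv, dif_pos hw]
          exact hφ ⟨v, hv⟩ ⟨w, hw⟩ hvw _ _
        · rw [dif_neg hw, MonoidHom.one_apply, one_mul, mul_one]
      · rw [dif_neg hv, MonoidHom.one_apply, one_mul, mul_one])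
    have hret : Θ = (Θ.comp (Subgroup.inclusion (h.Pb_le Uᶜ))).comp (h.ret Uᶜ) := by
      refine sup_hom_ext h.sup _ _ ?_
      intro v x hx hx'
      by_cases hv : v ∈ U
      · have h1 := hΘ v x hx hx'
        rw [dif_neg (fun h => h hv)] at h1
        have h2 := h.ret_out (W := Uᶜ) (v := v) (fun h => h hv) hx hx'
        rw [h1, MonoidHom.comp_apply, h2, map_one]
        rfl
      · have h2 := h.ret_in (W := Uᶜ) (v := v) hv hx hx'
        rw [MonoidHom.comp_apply, h2]
        rfl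
    let π : N →* N.map (QuotientGroup.mk' (Nc A U)) := (QuotientGroup.mk' (Nc A U)).subgroupMap N
    have hπs : Function.Surjective π := (QuotientGroup.mk' (Nc A U)).subgroupMap_surjective N
    have hk : π.ker ≤ Θ.ker := by
      intro n hn
      have h1 : (n : G) ∈ Nc A U := by
        rw [← QuotientGroup.eq_one_iff]
        exact congrArg Subtype.val hn
      have h2 := (h.mem_Nc_iff hU n.2).1 h1
      rw [MonoidHom.mem_ker, hret, MonoidHom.comp_apply]
      have h3 : (⟨(n : G), n.2⟩ : N) = n := rfl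
      rw [h3] at h2
      rw [h2, map_one]
    refine ⟨π.liftOfSurjective hπs ⟨Θ, hk⟩, ?_⟩
    rintro w _ ⟨a, ha, rfl⟩ ha'
    have h1 : (⟨QuotientGroup.mk' (Nc A U) a, ha'⟩ : N.map (QuotientGroup.mk' (Nc A U))) =
        π ⟨a, h.le w ha⟩ := rfl
    rw [h1]
    have h2 := MonoidHom.liftOfRightInverse_comp_apply π _
      (Function.rightInverse_surjInv hπs) ⟨Θ, hk⟩ ⟨a, h.le w ha⟩
    refine h2.trans ?_
    have h3 := hΘ w a ha (h.le w ha)
    have hw : (w : V) ∉ U := w.2
    rw [dif_pos hw] at h3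
    exact h3

end nc

end Pool.Agent.D0H25.GK
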