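import Pool.Agent.D0H25.GK.Step

/-!
# Graph products with an invariant filtration: transvections are allowed
-/

set_option autoImplicit false

namespace Pool.Agent.D0H25.GK

open Pool.Agent.Y110.FJ
open Pool.Agent.R941.FJ (C_equiv C_le C_cyc mem_sup_normal)
open Pool.Agent.Y462.SS (Closed)
open Pool.Agent.R684.FP (IsFreeProd FbC main_all cyc_real)

variable {C : ∀ (G : Type) [Group G], Prop}

/-- The action of `G` on the graph product `N` is compatible with the colouring `c` and the set `S`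
of vertices: vertices of the same colour are not joined, the normal closures of the vertex groups of
colour at least `i` are invariant, modulo the larger colours `G` permutes the conjugacy classes of
the vertex groups of each colour which belong to `S`, the vertex groups outside `S` are free, and
the mapping tori of the automorphisms of the vertex groups in `S` which are induced by elements of
`G`, modulo larger colours, are in the class. -/
structure Filt (C : ∀ (G : Type) [Group G], Prop) {G V : Type} [Group G] (N : Subgroup G)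
    (Λ : SimpleGraph V) (A : V → Subgroup G) (c : V → ℕ) (S : Set V) : Prop where
  ind : ∀ v w, c v = c w → ¬ Λ.Adj v w
  inv : ∀ (v : V) (g : G), ∀ a ∈ A v, g * a * g⁻¹ ∈ nc N A {w | c v ≤ c w}
  perm : ∀ v ∈ S, ∀ g : G, ∃ w ∈ S, c w = c v ∧ ∃ n ∈ N,
    (∀ a ∈ A v, ∃ b ∈ A w, (n * (g * a * g⁻¹) * n⁻¹) * b⁻¹ ∈ nc N A {u | c v < c u}) ∧
    (∀ b ∈ A w, ∃ a ∈ A v, (n * (g * a * g⁻¹) * n⁻¹) * b⁻¹ ∈ nc N A {u | c v < c u})
  free : ∀ v, v ∉ S → IsFreeGroup (A v)
  tor : ∀ v ∈ S, ∀ θ : MulAut (A v),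
    (∃ g : G, ∀ a : A v, (g * (a : G) * g⁻¹) * ((θ a : A v) : G)⁻¹ ∈ nc N A {u | c v < c u}) →
    C (A v ⋊[zpowersHom (MulAut (A v)) θ] Multiplicative ℤ)

/-- the subgroup generated by a subgroup and an element which acts on it by `θ` -/
theorem tor_sup (hC : ClosedE C) {G : Type} [Group G] {K : Subgroup G} (θ : MulAut K) (g : G)
    (hθ : ∀ a : K, ((θ a : K) : G) = g * a * g⁻¹)
    (h : C (K ⋊[zpowersHom (MulAut K) θ] Multiplicative ℤ)) : C ↥(K ⊔ Subgroup.zpowers g) := by
  refine cyc_real hC K g (fun x => ⟨fun hx => ?_, fun hx => ?_⟩)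
    (SemidirectProduct.inl (φ := zpowersHom (MulAut K) θ)) SemidirectProduct.inl_injective
    (SemidirectProduct.inr (Multiplicative.ofAdd 1)) ?_ h
  · rw [← hθ ⟨x, hx⟩]
    exact (θ ⟨x, hx⟩).2
  · have h1 := hθ (θ⁻¹ ⟨_, hx⟩)
    have h2 : θ (θ⁻¹ ⟨g * x * g⁻¹, hx⟩) = ⟨g * x * g⁻¹, hx⟩ := MulAut.apply_inv_self K θ _
    rw [h2] at h1
    have h3 : x = (θ⁻¹ ⟨g * x * g⁻¹, hx⟩ : K) := mul_left_cancel (mul_right_cancel h1)
    rw [h3]
    exact (θ⁻¹ ⟨g * x * g⁻¹, hx⟩).2
  · intro x y hxy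
    have h1 : y = θ x := Subtype.ext (hxy.trans (hθ x).symm)
    rw [← map_inv, ← SemidirectProduct.inl_aut]
    rw [h1, zpowersHom_apply, toAdd_ofAdd, zpow_one]

/-- transport of mapping tori -/
theorem tor_congr (hC : Closed C) {K L : Type} [Group K] [Group L] (e : K ≃* L) (θ : MulAut L)
    (h : C (K ⋊[zpowersHom (MulAut K) (MulAut.congr e.symm θ)] Multiplicative ℤ)) :
    C (L ⋊[zpowersHom (MulAut L) θ] Multiplicative ℤ) := by
  refine hC.of_injective _ _ (SemidirectProduct.map (φ₁ := zpowersHom (MulAut L) θ)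
    (φ₂ := zpowersHom (MulAut K) (MulAut.congr e.symm θ)) e.symm.toMonoidHom
    (MonoidHom.id (Multiplicative ℤ)) ?_) ?_ h
  · intro z
    ext x
    show e.symm ((θ ^ Multiplicative.toAdd z) x) =
      ((MulAut.congr e.symm θ) ^ Multiplicative.toAdd z) (e.symm x)
    rw [← map_zpow]
    show _ = e.symm ((θ ^ Multiplicative.toAdd z) (e (e.symm x)))
    rw [e.apply_symm_apply]
  · intro a b hab
    have h1 := congrArg SemidirectProduct.left hab
    have h2 := congrArg SemidirectProduct.right hab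
    rw [SemidirectProduct.map_left, SemidirectProduct.map_left] at h1
    rw [SemidirectProduct.map_right, SemidirectProduct.map_right] at h2
    exact SemidirectProduct.ext (e.symm.injective h1) h2

section

variable {G V : Type} [Group G] {N : Subgroup G} {Λ : SimpleGraph V} {A : V → Subgroup G} {U : Set V}

theorem nc_empty {W : Set V} (hW : ∀ w, w ∉ W) : nc N A W = ⊥ := by
  unfold nc
  rw [Subgroup.closure_eq_bot_iff]
  rintro x ⟨n, -, w, hw, -⟩
  exact absurd hw (hW w)

theorem nc_map' {G' V' : Type} [Group G'] (π : G →* G') {N' : Subgroup G'}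
    {A' : V' → Subgroup G'} {W : Set V} {W' : Set V'} (hN : ∀ n ∈ N, π n ∈ N')
    (hA : ∀ w ∈ W, ∀ a ∈ A w, π a = 1 ∨ ∃ w' ∈ W', π a ∈ A' w') {x : G} (hx : x ∈ nc N A W) :
    π x ∈ nc N' A' W' := by
  have h1 : nc N A W ≤ (nc N' A' W').comap π := by
    unfold nc
    rw [Subgroup.closure_le]
    rintro x ⟨n, hn, u, hu, a, ha, rfl⟩
    rw [SetLike.mem_coe, Subgroup.mem_comap, map_mul, map_mul, map_inv]
    rcases hA u hu a ha with h2 | ⟨w', hw', h2⟩
    · rw [h2, mul_one, mul_inv_cancel]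
      exact Subgroup.one_mem _
    · exact mem_nc (hN n hn) hw' h2
  exact h1 hx

theorem nc_comap' {G' V' : Type} [Group G'] (π : G →* G') {N' : Subgroup G'}
    {A' : V' → Subgroup G'} {W : Set V} {W' : Set V'} (hN : ∀ n' ∈ N', ∃ n ∈ N, π n = n')
    (hA : ∀ w' ∈ W', ∀ a' ∈ A' w', ∃ w ∈ W, ∃ a ∈ A w, π a = a') :
    nc N' A' W' ≤ (nc N A W).map π := by
  conv_lhs => unfold nc
  rw [Subgroup.closure_le]
  rintro _ ⟨n', hn', u', hu', a', ha', rfl⟩
  obtain ⟨n, hn, rfl⟩ := hN n' hn'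
  obtain ⟨u, hu, a, ha, rfl⟩ := hA u' hu' a' ha'
  exact ⟨n * a * n⁻¹, mem_nc hn hu ha, by rw [map_mul, map_mul, map_inv]⟩

theorem nc_map (W : Set V) {x : G} (hx : x ∈ nc N A W) :
    QuotientGroup.mk' (Nc A U) x ∈ nc (N.map (QuotientGroup.mk' (Nc A U)))
      (fun w : (Uᶜ : Set V) => (A w).map (QuotientGroup.mk' (Nc A U))) (Subtype.val ⁻¹' W) := by
  refine nc_map' (QuotientGroup.mk' (Nc A U)) (N' := N.map (QuotientGroup.mk' (Nc A U)))
    (A' := fun w : (Uᶜ : Set V) => (A w).map (QuotientGroup.mk' (Nc A U)))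
    (W' := Subtype.val ⁻¹' W) (fun n hn => ⟨n, hn, rfl⟩) ?_ hx
  intro w hw a ha
  by_cases hwU : w ∈ U
  · exact Or.inl ((QuotientGroup.eq_one_iff _).2 (le_Nc hwU ha))
  · exact Or.inr ⟨⟨w, hwU⟩, hw, a, ha, rfl⟩

theorem nc_comap {W : Set V} (hUW : U ⊆ W) (hU : InvW N A U) {x : G}
    (hx : QuotientGroup.mk' (Nc A U) x ∈ nc (N.map (QuotientGroup.mk' (Nc A U)))
      (fun w : (Uᶜ : Set V) => (A w).map (QuotientGroup.mk' (Nc A U))) (Subtype.val ⁻¹' W)) :
    x ∈ nc N A W := by
  have h1 := nc_comap' (N := N) (A := A) (W := W) (QuotientGroup.mk' (Nc A U))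
    (N' := N.map (QuotientGroup.mk' (Nc A U)))
    (A' := fun w : (Uᶜ : Set V) => (A w).map (QuotientGroup.mk' (Nc A U)))
    (W' := Subtype.val ⁻¹' W) (fun n hn => hn) (by
      rintro w hw _ ⟨a, ha, rfl⟩
      exact ⟨w, hw, a, ha, rfl⟩)
  obtain ⟨y, hy, hyx⟩ := h1 hx
  have h2 : y⁻¹ * x ∈ Nc A U := QuotientGroup.eq.1 hyx
  rw [Nc_eq hU] at h2
  have h3 := Subgroup.mul_mem _ hy (nc_mono hUW h2)
  rwa [mul_inv_cancel_left] at h3

end

/-- the hypotheses are inherited by the quotient by the largest colour -/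
theorem Filt.quot {G V : Type} [Group G] {N : Subgroup G} {Λ : SimpleGraph V} {A : V → Subgroup G}
    {c : V → ℕ} {S : Set V} (hC : ClosedE C) (h : IsGraphProd N Λ A) (hS : Filt C N Λ A c S)
    {U : Set V} {k : ℕ} (hUm : ∀ v, v ∈ U ↔ c v = k) (hInv : InvW N A U)
    (hlt : ∀ v, v ∉ U → c v < k) :
    Filt C (N.map (QuotientGroup.mk' (Nc A U))) (Λ.induce Uᶜ)
      (fun w : (Uᶜ : Set V) => (A w).map (QuotientGroup.mk' (Nc A U))) (fun v => c v)
      (Subtype.val ⁻¹' S) := by
  obtain ⟨π, hπ⟩ : ∃ π : G →* G ⧸ Nc A U, π = QuotientGroup.mk' (Nc A U) := ⟨_, rfl⟩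
  have hmap : ∀ (W : Set V) {x : G}, x ∈ nc N A W → π x ∈ nc (N.map π)
      (fun w : (Uᶜ : Set V) => (A w).map π) (Subtype.val ⁻¹' W) := by
    intro W x hx
    rw [hπ]
    exact nc_map W hx
  have hcomap : ∀ {W : Set V}, U ⊆ W → ∀ {x : G}, π x ∈ nc (N.map π)
      (fun w : (Uᶜ : Set V) => (A w).map π) (Subtype.val ⁻¹' W) → x ∈ nc N A W := by
    intro W hW x hx
    rw [hπ] at hx
    exact nc_comap hW hInv hx
  have hπs : Function.Surjective π := hπ ▸ QuotientGroup.mk'_surjective _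
  have hinj : ∀ v : V, v ∉ U → Function.Injective (π.subgroupMap (A v)) := by
    intro v hv a b hab
    exact Subtype.ext (h.mk_inj hInv hv a.2 b.2 (by rw [← hπ]; exact congrArg Subtype.val hab))
  rw [← hπ]
  refine ⟨?_, ?_, ?_, ?_, ?_⟩
  · intro v w hvw hadj
    exact hS.ind v w hvw hadj
  · rintro ⟨v, hv⟩ g' _ ⟨a, ha, rfl⟩
    obtain ⟨g, rfl⟩ := hπs g'
    rw [← map_inv, ← map_mul, ← map_mul]
    exact hmap {w | c v ≤ c w} (hS.inv v g a ha)
  · rintro ⟨v, hv⟩ hvS g'
    obtain ⟨g, rfl⟩ := hπs g'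
    obtain ⟨w, hwS, hw, n, hn, h1, h2⟩ := hS.perm v hvS g
    refine ⟨⟨w, fun hwU => hv ((hUm v).2 (hw.symm.trans ((hUm w).1 hwU)))⟩, hwS, hw,
      π n, ⟨n, hn, rfl⟩, ?_, ?_⟩
    · rintro _ ⟨a, ha, rfl⟩
      obtain ⟨b, hb, h3⟩ := h1 a ha
      refine ⟨π b, ⟨b, hb, rfl⟩, ?_⟩
      have h4 := hmap {u | c v < c u} h3
      simp only [map_mul, map_inv] at h4
      exact h4
    · rintro _ ⟨b, hb, rfl⟩
      obtain ⟨a, ha, h3⟩ := h2 b hb
      refine ⟨π a, ⟨a, ha, rfl⟩, ?_⟩
      have h4 := hmap {u | c v < c u} h3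
      simp only [map_mul, map_inv] at h4
      exact h4
  · rintro ⟨v, hv⟩ hvS
    have := hS.free v hvS
    exact IsFreeGroup.ofMulEquiv (MulEquiv.ofBijective (π.subgroupMap (A v))
      ⟨hinj v hv, π.subgroupMap_surjective (A v)⟩)
  · rintro ⟨v, hv⟩ hvS θ ⟨g', hg'⟩
    obtain ⟨g, rfl⟩ := hπs g'
    let e : A v ≃* (A v).map π := MulEquiv.ofBijective (π.subgroupMap (A v))
      ⟨hinj v hv, π.subgroupMap_surjective (A v)⟩
    refine tor_congr hC.base e θ (hS.tor v hvS _ ⟨g, fun a => ?_⟩)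
    refine hcomap (W := {u | c v < c u}) ?_ ?_
    · intro u hu
      show c v < c u
      rw [(hUm u).1 hu]
      exact hlt v hv
    · have h1 := hg' (e a)
      have h2 : π ((MulAut.congr e.symm θ a : A v) : G) = ((θ (e a) : (A v).map π) : G ⧸ Nc A U) := by
        show ((e (e.symm (θ (e a))) : (A v).map π) : G ⧸ Nc A U) = _
        rw [e.apply_symm_apply]
      rw [map_mul, map_mul, map_mul, map_inv, map_inv, h2]
      exact h1

/-- **the filtered case** -/
theorem coreF (hC : ClosedE C) (hF : FbC C) (k : ℕ) : ∀ {G V : Type} [Group G] {N : Subgroup G}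
    [N.Normal] {Λ : SimpleGraph V} {A : V → Subgroup G}, IsGraphProd N Λ A → ∀ (c : V → ℕ)
    (S : Set V), (∀ v, c v < k) → Filt C N Λ A c S → C (G ⧸ N) → C G := by
  induction k with
  | zero =>
    intro G V _ N _ Λ A h c S hc _ hQ
    have hN : N = ⊥ := by
      rw [← h.sup, eq_bot_iff]
      exact iSup_le fun v => absurd (hc v) (Nat.not_lt_zero _)
    refine hC.base.of_injective G (G ⧸ N) (QuotientGroup.mk' N) ?_ hQ
    rw [injective_iff_map_eq_one]
    intro x hx
    have h1 : x ∈ N := (QuotientGroup.eq_one_iff x).1 hx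
    rwa [hN, Subgroup.mem_bot] at h1
  | succ k ih =>
    intro G V _ N _ Λ A h c S hc hS hQ
    obtain ⟨U, hU⟩ : ∃ U : Set V, U = {v | c v = k} := ⟨_, rfl⟩
    have hUm : ∀ v, v ∈ U ↔ c v = k := fun v => by rw [hU]; rfl
    have hInv : InvW N A U := by
      intro u hu g a ha
      refine nc_mono ?_ (hS.inv u g a ha)
      intro w hw
      have h1 : c u ≤ c w := hw
      have h2 := hc w
      rw [hUm]
      rw [(hUm u).1 hu] at h1
      omega
    have hbot : ∀ u ∈ U, ∀ x, x ∈ nc N A {w | c u < c w} → x = 1 := by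
      intro u hu x hx
      rw [nc_empty] at hx
      · exact Subgroup.mem_bot.1 hx
      · intro w hw
        have h1 : c u < c w := hw
        have h2 := hc w
        rw [(hUm u).1 hu] at h1
        omega
    have hNn : (N.map (QuotientGroup.mk' (Nc A U))).Normal :=
      Subgroup.Normal.map inferInstance _ (QuotientGroup.mk'_surjective _)
    refine h.stepF hC hF hInv
      (fun u hu w hw => hS.ind u w (((hUm u).1 hu).trans ((hUm w).1 hw).symm)) S
      (fun u _ huS => hS.free u huS) ?_ ?_ ?_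
    · intro u hu huS g
      obtain ⟨w, hwS, hw, n, hn, h1, h2⟩ := hS.perm u huS g
      refine ⟨w, (hUm w).2 (hw.trans ((hUm u).1 hu)), hwS, n, hn, fun x => ⟨fun hx => ?_,
        fun hx => ?_⟩⟩
      · obtain ⟨b, hb, h3⟩ := h1 x hx
        have h4 := hbot u hu _ h3
        rw [mul_inv_eq_one] at h4
        rw [h4]
        exact hb
      · obtain ⟨a, ha, h3⟩ := h2 _ hx
        have h4 := hbot u hu _ h3
        rw [mul_inv_eq_one] at h4
        have h5 : a = x := by
          have h6 := mul_left_cancel (mul_right_cancel h4)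
          exact mul_left_cancel (mul_right_cancel h6)
        exact h5 ▸ ha
    · rintro u ⟨hu, huS⟩ g hg
      obtain ⟨θ, hθ⟩ : ∃ θ : MulAut (A u), ∀ a : A u, ((θ a : A u) : G) = g * a * g⁻¹ :=
        ⟨{ toFun := fun x => ⟨g * x * g⁻¹, (hg x).1 x.2⟩
           invFun := fun x => ⟨g⁻¹ * x * g, (hg _).2 (by
             have : g * (g⁻¹ * (x : G) * g) * g⁻¹ = x := by group
             rw [this]
             exact x.2)⟩
           left_inv := fun x => Subtype.ext (by
             show g⁻¹ * (g * (x : G) * g⁻¹) * g = x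
             group)
           right_inv := fun x => Subtype.ext (by
             show g * (g⁻¹ * (x : G) * g) * g⁻¹ = x
             group)
           map_mul' := fun x y => Subtype.ext (by
             show g * ((x : G) * y) * g⁻¹ = g * (x : G) * g⁻¹ * (g * (y : G) * g⁻¹)
             group) }, fun a => rfl⟩
      refine tor_sup hC θ g hθ (hS.tor u huS θ ⟨g, fun a => ?_⟩)
      rw [hθ, mul_inv_cancel]
      exact Subgroup.one_mem _
    refine ih (h.quot hInv) (fun v => c v) (Subtype.val ⁻¹' S) ?_ ?_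
      (C_equiv hC.base (QuotientGroup.quotientQuotientEquivQuotient (Nc A U) N (Nc_le h.le)) hQ)
    · rintro ⟨v, hv⟩
      have h1 : c v ≠ k := fun h => hv ((hUm v).2 h)
      have h2 := hc v
      show c v < k
      omega
    · refine hS.quot hC h hUm hInv ?_
      intro v hv
      have h1 : c v ≠ k := fun h => hv ((hUm v).2 h)
      have h2 := hc v
      omega

end Pool.Agent.D0H25.GK
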