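import Pool.Agent.D0H25.GK.General
import Pool.Agent.Helper705_SA.Amalg

/-!
# Finite subgroups of graph products of finite groups
-/

set_option autoImplicit false

namespace Pool.Agent.D0H25.GK

open Pool.Agent.Y110.FJ
open Pool.Agent.R941.FJ (C_equiv C_le C_cyc mem_sup_normal)
open Pool.Agent.Y462.SS (Closed)
open Pool.Agent.R684.FP (IsFreeProd FbC main_all cyc_real)
open Pool.Agent.Helper705_SA (IsAmalgam cosetGraph cosetGraph_isTree stab_coset)
open Pool.Agent.Helper270.Tree (TreeAct)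

variable {G V : Type} [Group G] {N : Subgroup G} {Λ : SimpleGraph V} {A : V → Subgroup G}

/-- a parabolic subgroup is an amalgam of smaller ones -/
theorem IsGraphProd.amalgam (h : IsGraphProd N Λ A) (W : Set V) (v : V) :
    IsAmalgam ((Pb A {w | w ∈ W ∧ w ≠ v}).subgroupOf (Pb A W))
      ((Pb A {w | w ∈ W ∧ (w = v ∨ Λ.Adj v w)}).subgroupOf (Pb A W)) := by
  classical
  have hle1 : Pb A {w | w ∈ W ∧ w ≠ v} ≤ Pb A W := Pb_mono fun w hw => hw.1
  have hle2 : Pb A {w | w ∈ W ∧ (w = v ∨ Λ.Adj v w)} ≤ Pb A W := Pb_mono fun w hw => hw.1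
  obtain ⟨B1, hB1⟩ : ∃ B : Subgroup G, B = Pb A {w | w ∈ W ∧ w ≠ v} := ⟨_, rfl⟩
  obtain ⟨B2, hB2⟩ : ∃ B : Subgroup G, B = Pb A {w | w ∈ W ∧ (w = v ∨ Λ.Adj v w)} := ⟨_, rfl⟩
  have m1 : ∀ w ∈ W, w ≠ v → A w ≤ B1 := fun w hw hwv => hB1 ▸ le_Pb ⟨hw, hwv⟩
  have m2 : ∀ w ∈ W, (w = v ∨ Λ.Adj v w) → A w ≤ B2 := fun w hw hwv => hB2 ▸ le_Pb ⟨hw, hwv⟩
  rw [← hB1] at hle1 ⊢
  rw [← hB2] at hle2 ⊢
  refine ⟨?_, ?_⟩
  · apply Subgroup.map_injective (Pb A W).subtype_injective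
    rw [Subgroup.map_sup, map_subtype_of_le hle1, map_subtype_of_le hle2,
      ← MonoidHom.range_eq_map, Subgroup.range_subtype]
    apply le_antisymm (sup_le hle1 hle2)
    refine iSup_le ?_
    rintro ⟨w, hw⟩
    by_cases hwv : w = v
    · exact (m2 w hw (Or.inl hwv)).trans le_sup_right
    · exact (m1 w hw hwv).trans le_sup_left
  · intro K _ f g hfg
    have m1' : ∀ w : W, (w : V) ≠ v → ∀ a : A w, (⟨a, le_Pb w.2 a.2⟩ : Pb A W) ∈ B1.subgroupOf (Pb A W) :=
      fun w hw a => m1 w w.2 hw a.2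
    have m2' : ∀ w : W, ((w : V) = v ∨ Λ.Adj v w) → ∀ a : A w,
        (⟨a, le_Pb w.2 a.2⟩ : Pb A W) ∈ B2.subgroupOf (Pb A W) := fun w hw a => m2 w w.2 hw a.2
    let j : ∀ w : W, A w →* Pb A W := fun w => Subgroup.inclusion (le_Pb w.2)
    let φ : ∀ w : W, A w →* K := fun w => if hw : (w : V) = v then
      g.comp ((j w).codRestrict (B2.subgroupOf (Pb A W)) (m2' w (Or.inl hw))) else
      f.comp ((j w).codRestrict (B1.subgroupOf (Pb A W)) (m1' w hw))
    have hφ1 : ∀ (w : W) (hw : (w : V) ≠ v) (a : A w), φ w a = f ⟨j w a, m1' w hw a⟩ := by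
      intro w hw a
      show (if hw : (w : V) = v then _ else _ : A w →* K) a = _
      rw [dif_neg hw]
      rfl
    have hφ2 : ∀ (w : W) (hw : (w : V) = v ∨ Λ.Adj v w) (a : A w),
        φ w a = g ⟨j w a, m2' w hw a⟩ := by
      intro w hw a
      by_cases hwv : (w : V) = v
      · show (if hw : (w : V) = v then _ else _ : A w →* K) a = _
        rw [dif_pos hwv]
        rfl
      · rw [hφ1 w hwv a]
        exact hfg _ (m1' w hwv a) (m2' w hw a)
    obtain ⟨Φ, hΦ⟩ := (h.sub W).exists_hom φ (by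
      intro w u hwu a b
      have hwu' : Λ.Adj (w : V) u := hwu
      have hcomm : j w a * j u b = j u b * j w a := Subtype.ext (h.comm hwu' a.2 b.2)
      by_cases hw : (w : V) = v
      · have hu : (u : V) = v ∨ Λ.Adj v u := Or.inr (hw ▸ hwu')
        rw [hφ2 w (Or.inl hw), hφ2 u hu, ← map_mul, ← map_mul]
        congr 1
        exact Subtype.ext hcomm
      · by_cases hu : (u : V) = v
        · have hw' : (w : V) = v ∨ Λ.Adj v w := Or.inr (hu ▸ hwu'.symm)
          rw [hφ2 w hw', hφ2 u (Or.inl hu), ← map_mul, ← map_mul]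
          congr 1
          exact Subtype.ext hcomm
        · rw [hφ1 w hw, hφ1 u hu, ← map_mul, ← map_mul]
          congr 1
          exact Subtype.ext hcomm)
    refine ⟨Φ, ?_, ?_⟩
    · have h1 : Φ.comp (B1.subgroupOf (Pb A W)).subtype = f := by
        refine sup_hom_ext (B := fun w : {w // w ∈ W ∧ w ≠ v} => (A w).subgroupOf (Pb A W)) ?_ _ _ ?_
        · exact sup_subgroupOf (N := B1) hB1.symm hle1
        · rintro ⟨w, hw, hwv⟩ x hx hx'
          have h2 := hΦ ⟨w, hw⟩ x hx x.2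
          rw [hφ1 ⟨w, hw⟩ hwv] at h2
          exact h2
      intro a
      exact DFunLike.congr_fun h1 a
    · have h1 : Φ.comp (B2.subgroupOf (Pb A W)).subtype = g := by
        refine sup_hom_ext (B := fun w : {w // w ∈ W ∧ (w = v ∨ Λ.Adj v w)} =>
          (A w).subgroupOf (Pb A W)) ?_ _ _ ?_
        · exact sup_subgroupOf (N := B2) hB2.symm hle2
        · rintro ⟨w, hw, hwv⟩ x hx hx'
          have h2 := hΦ ⟨w, hw⟩ x hx x.2
          rw [hφ2 ⟨w, hw⟩ hwv] at h2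
          exact h2
      intro a
      exact DFunLike.congr_fun h1 a

/-- a finite subgroup of an amalgam is conjugate into one of the two subgroups -/
theorem amalgam_fin {P : Type} [Group P] {B1 B2 : Subgroup P} (h : IsAmalgam B1 B2) (H : Subgroup P)
    [Finite H] : ∃ p : P, (∀ x ∈ H, p * x * p⁻¹ ∈ B1) ∨ (∀ x ∈ H, p * x * p⁻¹ ∈ B2) := by
  have hT : TreeAct P (cosetGraph B1 B2) := by
    refine ⟨cosetGraph_isTree B1 B2 h, ?_, ?_⟩
    · rintro g v w ⟨k, ⟨rfl, rfl⟩ | ⟨rfl, rfl⟩⟩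
      · exact ⟨g * k, Or.inl ⟨rfl, rfl⟩⟩
      · exact ⟨g * k, Or.inr ⟨rfl, rfl⟩⟩
    · rintro g v w ⟨k, ⟨rfl, rfl⟩ | ⟨rfl, rfl⟩⟩ ⟨h1, h2⟩
      · cases h1
      · cases h1
  obtain ⟨v, hv⟩ := Pool.Agent.Helper705_SA.exists_fixed_of_finite
    (Pool.Agent.Helper705_SA.TreeAct.sub hT H)
  have key : ∀ (B : Subgroup P) (p : P), (∀ x ∈ H, x • (QuotientGroup.mk p : P ⧸ B) =
      QuotientGroup.mk p) → ∀ x ∈ H, p⁻¹ * x * p⁻¹⁻¹ ∈ B := by
    intro B p hp x hx
    have h1 : (QuotientGroup.mk (x * p) : P ⧸ B) = QuotientGroup.mk p := hp x hx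
    have h2 := QuotientGroup.eq.1 h1.symm
    rw [inv_inv]
    rwa [← mul_assoc] at h2
  rcases v with v | v
  · obtain ⟨p, rfl⟩ := QuotientGroup.mk_surjective v
    refine ⟨p⁻¹, Or.inl (key B1 p fun x hx => ?_)⟩
    exact Sum.inl_injective (hv ⟨x, hx⟩)
  · obtain ⟨p, rfl⟩ := QuotientGroup.mk_surjective v
    refine ⟨p⁻¹, Or.inr (key B2 p fun x hx => ?_)⟩
    exact Sum.inr_injective (hv ⟨x, hx⟩)

/-- **finite subgroups of graph products are conjugate into the subgroups of the cliques** -/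
theorem IsGraphProd.fin_sub (h : IsGraphProd N Λ A) (k : ℕ) : ∀ W : Set V, W.Finite → W.ncard ≤ k →
    ∀ H : Subgroup G, Finite H → H ≤ Pb A W → ∃ K ⊆ W, (∀ v ∈ K, ∀ w ∈ K, v ≠ w → Λ.Adj v w) ∧
      ∃ n ∈ Pb A W, ∀ x ∈ H, n * x * n⁻¹ ∈ Pb A K := by
  induction k with
  | zero =>
    intro W hW hk H _ hH
    have hW0 : W = ∅ := (Set.ncard_eq_zero hW).1 (Nat.le_zero.1 hk)
    refine ⟨W, le_rfl, ?_, 1, Subgroup.one_mem _, fun x hx => ?_⟩
    · intro v hv
      rw [hW0] at hv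
      exact absurd hv (Set.notMem_empty v)
    · simpa using hH hx
  | succ k ih =>
    intro W hW hk H hHf hH
    by_cases hcl : ∀ v ∈ W, ∀ w ∈ W, v ≠ w → Λ.Adj v w
    · exact ⟨W, le_rfl, hcl, 1, Subgroup.one_mem _, fun x hx => by simpa using hH hx⟩
    push Not at hcl
    obtain ⟨v, hv, w, hw, hvw, hadj⟩ := hcl
    have hle1 : {w | w ∈ W ∧ w ≠ v} ⊆ W := fun w hw => hw.1
    have hle2 : {w | w ∈ W ∧ (w = v ∨ Λ.Adj v w)} ⊆ W := fun w hw => hw.1
    have hc1 : {w | w ∈ W ∧ w ≠ v}.ncard ≤ k := by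
      have h1 : {w | w ∈ W ∧ w ≠ v} ⊂ W := (Set.ssubset_iff_of_subset hle1).2
        ⟨v, hv, fun h => h.2 rfl⟩
      have h2 := Set.ncard_lt_ncard h1 hW
      omega
    have hc2 : {w | w ∈ W ∧ (w = v ∨ Λ.Adj v w)}.ncard ≤ k := by
      have h1 : {w | w ∈ W ∧ (w = v ∨ Λ.Adj v w)} ⊂ W := (Set.ssubset_iff_of_subset hle2).2
        ⟨w, hw, fun h => h.2.elim (fun h => hvw h.symm) hadj⟩
      have h2 := Set.ncard_lt_ncard h1 hW
      omega
    have hfin : Finite (H.subgroupOf (Pb A W)) := by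
      refine Finite.of_injective (fun x => (⟨x.1, x.2⟩ : H)) ?_
      intro a b hab
      exact Subtype.ext (Subtype.ext (congrArg (fun z : H => (z : G)) hab))
    have main : ∀ W' : Set V, W' ⊆ W → W'.ncard ≤ k → (∃ p : Pb A W, ∀ x ∈ H.subgroupOf (Pb A W),
        p * x * p⁻¹ ∈ (Pb A W').subgroupOf (Pb A W)) → ∃ K ⊆ W, (∀ v ∈ K, ∀ w ∈ K, v ≠ w →
        Λ.Adj v w) ∧ ∃ n ∈ Pb A W, ∀ x ∈ H, n * x * n⁻¹ ∈ Pb A K := by
      rintro W' hW' hk' ⟨p, hp⟩
      obtain ⟨H', hH'⟩ : ∃ H' : Subgroup G, H' = H.map (MulAut.conj (p : G)).toMonoidHom := ⟨_, rfl⟩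
      have hH'f : Finite H' := by
        rw [hH']
        exact Finite.of_surjective _ ((MulAut.conj (p : G)).toMonoidHom.subgroupMap_surjective H)
      have hH'W : H' ≤ Pb A W' := by
        rw [hH']
        rintro _ ⟨x, hx, rfl⟩
        exact hp ⟨x, hH hx⟩ hx
      obtain ⟨K, hK, hKcl, n, hn, h1⟩ := ih W' (hW.subset hW') hk' H' hH'f hH'W
      refine ⟨K, hK.trans hW', hKcl, n * p, Subgroup.mul_mem _ (Pb_mono hW' hn) p.2, fun x hx => ?_⟩
      have h2 := h1 ((p : G) * x * (p : G)⁻¹) (by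
        rw [hH']
        exact ⟨x, hx, rfl⟩)
      have h3 : n * p * x * (n * (p : G))⁻¹ = n * ((p : G) * x * (p : G)⁻¹) * n⁻¹ := by group
      rw [h3]
      exact h2
    obtain ⟨p, hp | hp⟩ := amalgam_fin (h.amalgam W v) (H.subgroupOf (Pb A W))
    · exact main _ hle1 hc1 ⟨p, hp⟩
    · exact main _ hle2 hc2 ⟨p, hp⟩

/-- the subgroups of finite cliques are finite -/
theorem IsGraphProd.fin_clique (h : IsGraphProd N Λ A) (hA : ∀ v, Finite (A v)) {K : Set V}
    (hK : K.Finite) (hcl : ∀ v ∈ K, ∀ w ∈ K, v ≠ w → Λ.Adj v w) : Finite (Pb A K) := by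
  have : Fintype K := hK.fintype
  have hcomm : Pairwise fun i j : K => ∀ x y : G, x ∈ A i → y ∈ A j → Commute x y := by
    intro i j hij x y hx hy
    exact h.comm (hcl i i.2 j j.2 (fun h => hij (Subtype.ext h))) hx hy
  have h1 := Subgroup.noncommPiCoprod_range (H := fun w : K => A w) (hcomm := hcomm)
  have h2 : Finite (Subgroup.noncommPiCoprod (H := fun w : K => A w) hcomm).range := by
    exact Finite.of_surjective _ (MonoidHom.rangeRestrict_surjective _)
  rw [h1] at h2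
  exact h2

variable {C : ∀ (G : Type) [Group G], Prop}

/-- finite factors -/
theorem facC_fin (hC : ClosedE C) (hA : ∀ v, Finite (A v)) (U : Set V) : FacC C A U := by
  intro v _ g hg
  have := hA v
  let θ : Equiv.Perm (A v) :=
    { toFun := fun x => ⟨g * x * g⁻¹, (hg x).1 x.2⟩
      invFun := fun x => ⟨g⁻¹ * x * g, (hg _).2 (by
        have : g * (g⁻¹ * (x : G) * g) * g⁻¹ = x := by group
        rw [this]
        exact x.2)⟩
      left_inv := fun x => Subtype.ext (by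
        show g⁻¹ * (g * (x : G) * g⁻¹) * g = x
        group)
      right_inv := fun x => Subtype.ext (by
        show g * (g⁻¹ * (x : G) * g) * g⁻¹ = x
        group) }
  refine cyc_real hC (A v) g hg (MulAction.toPermHom (A v) (A v)) ?_ θ ?_
    (Pool.Agent.Y430.SS.of_finite hC.base (Equiv.Perm (A v)) inferInstance)
  · intro a b hab
    have h1 := Equiv.congr_fun hab (1 : A v)
    simpa using h1
  · intro x y hxy
    apply Equiv.ext
    intro z
    apply Subtype.ext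
    show (y : G) * z = g * (x * (g⁻¹ * z * g)) * g⁻¹
    rw [hxy]
    group

/-- **extensions by finite graph products of finite groups** -/
theorem main_fin (hC : ClosedE C) (hF : FbC C) [N.Normal] (h : IsGraphProd N Λ A) [Finite V]
    (hA : ∀ v, Finite (A v)) (hQ : C (G ⧸ N)) : C G := by
  classical
  -- finitely many classes of finite subgroups
  obtain ⟨T, hTf, hT⟩ : ∃ T : Set (Subgroup G), T.Finite ∧ ∀ H : Subgroup G, Finite H → H ≤ N →
      ∃ t ∈ T, ∃ n ∈ N, ∀ x, x ∈ H ↔ n * x * n⁻¹ ∈ t := by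
    refine ⟨⋃ K ∈ {K : Set V | ∀ v ∈ K, ∀ w ∈ K, v ≠ w → Λ.Adj v w}, {t | t ≤ Pb A K}, ?_, ?_⟩
    · refine Set.Finite.biUnion (Set.toFinite _) ?_
      intro K hK
      have h1 := h.fin_clique hA K.toFinite hK
      refine Set.Finite.of_finite_image (f := fun t : Subgroup G => (t : Set G)) ?_
        (SetLike.coe_injective.injOn)
      refine Set.Finite.subset (s := 𝒫 (Pb A K : Set G)) (Set.Finite.finite_subsets (Set.toFinite _)) ?_
      rintro _ ⟨t, ht, rfl⟩
      exact ht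
    · intro H hHf hHN
      have hHN' : H ≤ Pb A (Set.univ : Set V) := by
        refine hHN.trans ?_
        rw [← h.sup]
        exact iSup_le fun v => le_Pb (Set.mem_univ v)
      obtain ⟨K, -, hK, n, hn, h1⟩ := h.fin_sub _ Set.univ Set.finite_univ le_rfl H hHf hHN'
      refine ⟨H.map (MulAut.conj n).toMonoidHom, ?_, n, h.Pb_le _ hn, ?_⟩
      · rw [Set.mem_iUnion₂]
        refine ⟨K, hK, ?_⟩
        rintro _ ⟨x, hx, rfl⟩
        exact h1 x hx
      · intro x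
        constructor
        · intro hx
          exact ⟨x, hx, rfl⟩
        · rintro ⟨y, hy, hyx⟩
          have h2 : n * y * n⁻¹ = n * x * n⁻¹ := hyx
          have h3 : y = x := mul_left_cancel (mul_right_cancel h2)
          exact h3 ▸ hy
  -- the subgroup which preserves the classes of the factors
  obtain ⟨G0, hG0⟩ : ∃ G0 : Subgroup G, G0 = (Act N A).comap (MonoidHom.inl G (Equiv.Perm V)) :=
    ⟨_, rfl⟩
  have hmem : ∀ g, g ∈ G0 ↔ ∀ v, ∃ n ∈ N, ∀ x, x ∈ A v ↔ n * (g * x * g⁻¹) * n⁻¹ ∈ A v := by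
    intro g
    rw [hG0]
    rfl
  have hNG : N ≤ G0 := by
    intro n hn
    rw [hmem]
    intro v
    refine ⟨n⁻¹, N.inv_mem hn, fun x => ?_⟩
    have : n⁻¹ * (n * x * n⁻¹) * n⁻¹⁻¹ = x := by group
    rw [this]
  have hfi : G0.FiniteIndex := by
    have hTf' : Finite T := hTf
    have h1 : ∀ (g : G) (v : V), ∃ t : T, ∃ n ∈ N, ∀ x, x ∈ A v ↔ n * (g * x * g⁻¹) * n⁻¹ ∈ t.1 := by
      intro g v
      have := hA v
      have hf : Finite ((A v).map (MulAut.conj g).toMonoidHom) :=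
        Finite.of_surjective _ ((MulAut.conj g).toMonoidHom.subgroupMap_surjective (A v))
      obtain ⟨t, ht, n, hn, h2⟩ := hT ((A v).map (MulAut.conj g).toMonoidHom) hf (by
        rintro _ ⟨x, hx, rfl⟩
        exact ‹N.Normal›.conj_mem x (h.le v hx) g)
      refine ⟨⟨t, ht⟩, n, hn, fun x => ?_⟩
      rw [← h2]
      constructor
      · intro hx
        exact ⟨x, hx, rfl⟩
      · rintro ⟨y, hy, hyx⟩
        have h2 : g * y * g⁻¹ = g * x * g⁻¹ := hyx
        have h3 : y = x := mul_left_cancel (mul_right_cancel h2)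
        exact h3 ▸ hy
    choose τ hτ using h1
    have h2 : ∀ g k : G, τ g = τ k → (QuotientGroup.mk k : G ⧸ G0) = QuotientGroup.mk g := by
      intro g k hgk
      rw [QuotientGroup.eq, hmem]
      intro v
      obtain ⟨n, hn, h3⟩ := hτ g v
      obtain ⟨m, hm, h4⟩ := hτ k v
      rw [← hgk] at h4
      refine ⟨k⁻¹ * (m⁻¹ * n) * k, ?_, fun x => ?_⟩
      · simpa using ‹N.Normal›.conj_mem _ (N.mul_mem (N.inv_mem hm) hn) k⁻¹
      · rw [h3, h4]
        have h5 : m * (k * (k⁻¹ * (m⁻¹ * n) * k * (k⁻¹ * g * x * (k⁻¹ * g)⁻¹) *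
            (k⁻¹ * (m⁻¹ * n) * k)⁻¹) * k⁻¹) * m⁻¹ = n * (g * x * g⁻¹) * n⁻¹ := by group
        rw [h5]
    have h3 : Finite (G ⧸ G0) := by
      refine Finite.of_injective (fun q : G ⧸ G0 => τ (Quotient.out q)) ?_
      intro q r hqr
      have h4 := h2 _ _ hqr
      have h5 : (QuotientGroup.mk (Quotient.out q) : G ⧸ G0) = q := Quotient.out_eq q
      have h6 : (QuotientGroup.mk (Quotient.out r) : G ⧸ G0) = r := Quotient.out_eq r
      rw [← h5, ← h6]
      exact h4.symm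
    exact Subgroup.finiteIndex_of_finite_quotient
  refine hC.base.finiteIndex G G0 hfi ?_
  obtain ⟨k, ⟨e⟩⟩ := Finite.exists_equiv_fin V
  refine core hC hF k (h.inSub hNG) (fun v => (e v : ℕ)) (fun v => (e v).2) ?_ ?_
    ((facC_fin hC hA Set.univ).inSub hC.base (fun v => (h.le v).trans hNG)) ?_
  · intro v w hvw
    have h1 : v = w := e.injective (Fin.ext hvw)
    rw [h1]
    exact Λ.irrefl
  · rintro v ⟨g, hg⟩
    obtain ⟨n, hn, h1⟩ := (hmem g).1 hg v
    exact ⟨v, rfl, ⟨n, hNG hn⟩, hn, fun x => h1 x⟩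
  · refine Pool.Agent.R941.FJ.quot hC.base G0 ?_
    exact hC.base.of_injective _ _ (G0.map (QuotientGroup.mk' N)).subtype
      (Subgroup.subtype_injective _) hQ

end Pool.Agent.D0H25.GK
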