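import Pool.Agent.D0H25.GK.Basic
import Pool.Agent.R684.FP.Main

/-!
# The normal closure of factors which are not joined by edges is a free product
-/

set_option autoImplicit false

namespace Pool.Agent.D0H25.GK

open Monoid
open Pool.Agent.R684.FP (IsFreeProd)

/-! ### groups acting on free products by permutations of the factors -/

section act

variable {Q I : Type} [Group Q] (Z : I → Type) [∀ i, MulAction Q (Z i)] (M : I → Type)
  [∀ i, Group (M i)]

/-- the free product of copies of the `M i`, indexed by `Z i` -/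
abbrev PP : Type := CoprodI fun y : Sigma Z => M y.1

/-- the inclusion of a factor -/
abbrev ofP (y : Sigma Z) : M y.1 →* PP Z M := CoprodI.of (M := fun y : Sigma Z => M y.1) (i := y)

/-- the permutation of the factors -/
def mv (q : Q) : PP Z M →* PP Z M := CoprodI.lift fun y => ofP Z M ⟨y.1, q • y.2⟩

theorem mv_of (q : Q) (y : Sigma Z) (a : M y.1) :
    mv Z M q (ofP Z M y a) = ofP Z M ⟨y.1, q • y.2⟩ a := by
  unfold mv ofP
  rw [CoprodI.lift_of]

theorem mv_one : mv Z M (1 : Q) = MonoidHom.id _ := by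
  apply CoprodI.ext_hom
  rintro ⟨i, z⟩
  ext a
  have h := mv_of Z M (1 : Q) ⟨i, z⟩ a
  rw [one_smul] at h
  exact h

theorem mv_mul (p q : Q) : mv Z M (p * q) = (mv Z M p).comp (mv Z M q) := by
  apply CoprodI.ext_hom
  rintro ⟨i, z⟩
  ext a
  have h := mv_of Z M (p * q) ⟨i, z⟩ a
  rw [mul_smul] at h
  show mv Z M (p * q) (ofP Z M ⟨i, z⟩ a) = mv Z M p (mv Z M q (ofP Z M ⟨i, z⟩ a))
  rw [h, mv_of, mv_of]

/-- the action -/
def mvA : Q →* MulAut (PP Z M) where
  toFun q := MonoidHom.toMulEquiv (mv Z M q) (mv Z M q⁻¹)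
    (by rw [← mv_mul, inv_mul_cancel, mv_one]) (by rw [← mv_mul, mul_inv_cancel, mv_one])
  map_one' := by
    apply MulEquiv.toMonoidHom_injective
    exact mv_one Z M
  map_mul' p q := by
    apply MulEquiv.toMonoidHom_injective
    exact mv_mul Z M p q

theorem mvA_apply (q : Q) (x : PP Z M) : mvA Z M q x = mv Z M q x := rfl

end act

variable {G V : Type} [Group G] {N : Subgroup G} {Λ : SimpleGraph V} {A : V → Subgroup G} {U : Set V}

/-- the neighbours of `u` outside `U` -/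
def nb (Λ : SimpleGraph V) (U : Set V) (u : V) : Set V := {w | w ∉ U ∧ Λ.Adj u w}

/-- the subgroup of the link, in the parabolic subgroup of the complement of `U` -/
def Lk (Λ : SimpleGraph V) (A : V → Subgroup G) (U : Set V) (u : V) : Subgroup (Pb A Uᶜ) :=
  (Pb A (nb Λ U u)).subgroupOf (Pb A Uᶜ)

/-- the index set of the free factors -/
abbrev Ix (Λ : SimpleGraph V) (A : V → Subgroup G) (U : Set V) : Type :=
  Σ u : U, Pb A Uᶜ ⧸ Lk Λ A U u

/-- the conjugating elements -/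
noncomputable def xr (y : Ix Λ A U) : G := ((Quotient.out y.2 : Pb A Uᶜ) : G)

/-- the free factors -/
noncomputable def Bf (y : Ix Λ A U) : Subgroup G := (A y.1).map (MulAut.conj (xr y)).toMonoidHom

theorem mem_Bf {y : Ix Λ A U} {x : G} : x ∈ Bf y ↔ (xr y)⁻¹ * x * xr y ∈ A y.1 := by
  constructor
  · rintro ⟨a, ha, rfl⟩
    have : (xr y)⁻¹ * ((MulAut.conj (xr y)).toMonoidHom a) * xr y = a := by
      show (xr y)⁻¹ * (xr y * a * (xr y)⁻¹) * xr y = a
      group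
    rw [this]
    exact ha
  · intro h
    refine ⟨_, h, ?_⟩
    show xr y * ((xr y)⁻¹ * x * xr y) * (xr y)⁻¹ = x
    group

theorem IsGraphProd.Lk_comm (h : IsGraphProd N Λ A) {u : V} {l a : G}
    (hl : l ∈ Pb A (nb Λ U u)) (ha : a ∈ A u) : l * a = a * l := by
  have h1 : Pb A (nb Λ U u) ≤ Subgroup.centralizer {a} := by
    refine iSup_le ?_
    rintro ⟨w, hw1, hw⟩ x hx
    rw [Subgroup.mem_centralizer_iff]
    rintro _ rfl
    exact h.comm hw ha hx
  have h2 := Subgroup.mem_centralizer_iff.1 (h1 hl) a rfl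
  exact h2.symm

/-- conjugates by elements of the same coset -/
theorem IsGraphProd.coset (h : IsGraphProd N Λ A) (u : U) (b : Pb A Uᶜ) (x : G) :
    x ∈ Bf (⟨u, QuotientGroup.mk b⟩ : Ix Λ A U) ↔ (b : G)⁻¹ * x * b ∈ A u := by
  obtain ⟨y, hy⟩ : ∃ y : Ix Λ A U, y = ⟨u, QuotientGroup.mk b⟩ := ⟨_, rfl⟩
  have h1 : (Quotient.out (QuotientGroup.mk b : Pb A Uᶜ ⧸ Lk Λ A U u))⁻¹ * b ∈ Lk Λ A U u := by
    rw [← QuotientGroup.eq]
    exact Quotient.out_eq _
  rw [mem_Bf]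
  have h2 : xr (⟨u, QuotientGroup.mk b⟩ : Ix Λ A U) =
      ((Quotient.out (QuotientGroup.mk b : Pb A Uᶜ ⧸ Lk Λ A U u) : Pb A Uᶜ) : G) := rfl
  obtain ⟨r, hr⟩ : ∃ r : G, r = xr (⟨u, QuotientGroup.mk b⟩ : Ix Λ A U) := ⟨_, rfl⟩
  have h3 : r⁻¹ * (b : G) ∈ Pb A (nb Λ U u) := by
    rw [hr, h2]
    exact h1
  rw [← hr]
  obtain ⟨l, hl⟩ : ∃ l : G, l = r⁻¹ * (b : G) := ⟨_, rfl⟩
  rw [← hl] at h3
  have hb : (b : G) = r * l := by rw [hl]; group
  rw [hb]
  have e1 : (r * l)⁻¹ * x * (r * l) = l⁻¹ * (r⁻¹ * x * r) * l := by group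
  rw [e1]
  constructor
  · intro h4
    have h5 := h.Lk_comm h3 h4
    have h6 : l⁻¹ * (r⁻¹ * x * r) * l = r⁻¹ * x * r := by
      rw [mul_assoc, ← h5]
      group
    rw [h6]
    exact h4
  · intro h4
    have h5 := h.Lk_comm h3 h4
    have h6 : r⁻¹ * x * r = l⁻¹ * (r⁻¹ * x * r) * l := by
      have h7 : l * (l⁻¹ * (r⁻¹ * x * r) * l) * l⁻¹ = l⁻¹ * (r⁻¹ * x * r) * l := by
        rw [h5]
        group
      rw [← h7]
      group
    rw [h6]
    exact h4

/-- the homomorphism to the semidirect product -/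
theorem IsGraphProd.exists_Ph (h : IsGraphProd N Λ A) (hind : ∀ u ∈ U, ∀ w ∈ U, ¬ Λ.Adj u w) :
    ∃ Φ : N →* PP (fun u : U => Pb A Uᶜ ⧸ Lk Λ A U u) (fun u : U => A u) ⋊[mvA (Q := Pb A Uᶜ)
        (fun u : U => Pb A Uᶜ ⧸ Lk Λ A U u) (fun u : U => A u)] Pb A Uᶜ,
      (∀ (b : G) (hb : b ∈ Pb A Uᶜ) (hb' : b ∈ N), Φ ⟨b, hb'⟩ = SemidirectProduct.inr ⟨b, hb⟩) ∧
      ∀ (u : V) (hu : u ∈ U) (a : G) (ha : a ∈ A u) (ha' : a ∈ N), Φ ⟨a, ha'⟩ =
        SemidirectProduct.inl (ofP (fun u : U => Pb A Uᶜ ⧸ Lk Λ A U u) (fun u : U => A u)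
          ⟨⟨u, hu⟩, QuotientGroup.mk 1⟩ ⟨a, ha⟩) := by
  classical
  obtain ⟨Φ, hΦ⟩ := h.exists_hom (H := PP (fun u : U => Pb A Uᶜ ⧸ Lk Λ A U u)
      (fun u : U => A u) ⋊[mvA (Q := Pb A Uᶜ)
        (fun u : U => Pb A Uᶜ ⧸ Lk Λ A U u) (fun u : U => A u)] Pb A Uᶜ)
    (fun v => if hv : v ∈ U then SemidirectProduct.inl.comp
        (ofP (fun u : U => Pb A Uᶜ ⧸ Lk Λ A U u) (fun u : U => A u) ⟨⟨v, hv⟩, QuotientGroup.mk 1⟩)
      else SemidirectProduct.inr.comp (Subgroup.inclusion (le_Pb (show v ∈ Uᶜ from hv)))) (by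
      have key : ∀ (u w : V) (hu : u ∈ U) (hw : w ∉ U), Λ.Adj u w → ∀ (a : A u) (b : A w),
          (SemidirectProduct.inr (Subgroup.inclusion (le_Pb (show w ∈ Uᶜ from hw)) b) : PP
              (fun u : U => Pb A Uᶜ ⧸ Lk Λ A U u) (fun u : U => A u) ⋊[mvA (Q := Pb A Uᶜ)
              (fun u : U => Pb A Uᶜ ⧸ Lk Λ A U u) (fun u : U => A u)] Pb A Uᶜ) *
            SemidirectProduct.inl (ofP (fun u : U => Pb A Uᶜ ⧸ Lk Λ A U u) (fun u : U => A u)
              ⟨⟨u, hu⟩, QuotientGroup.mk 1⟩ a) =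
            SemidirectProduct.inl (ofP (fun u : U => Pb A Uᶜ ⧸ Lk Λ A U u) (fun u : U => A u)
              ⟨⟨u, hu⟩, QuotientGroup.mk 1⟩ a) *
            SemidirectProduct.inr (Subgroup.inclusion (le_Pb (show w ∈ Uᶜ from hw)) b) := by
        intro u w hu hw huw a b
        have h1 : Subgroup.inclusion (le_Pb (show w ∈ Uᶜ from hw)) b •
            (QuotientGroup.mk 1 : Pb A Uᶜ ⧸ Lk Λ A U u) = QuotientGroup.mk 1 := by
          show QuotientGroup.mk (Subgroup.inclusion (le_Pb (show w ∈ Uᶜ from hw)) b * 1) = _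
          rw [mul_one, QuotientGroup.eq, mul_one]
          refine Subgroup.inv_mem _ ?_
          show (b : G) ∈ Pb A (nb Λ U u)
          exact le_Pb (A := A) (show w ∈ nb Λ U u from ⟨hw, huw⟩) b.2
        have h2 := mv_of (fun u : U => Pb A Uᶜ ⧸ Lk Λ A U u) (fun u : U => A u)
          (Subgroup.inclusion (le_Pb (show w ∈ Uᶜ from hw)) b)
          ⟨⟨u, hu⟩, QuotientGroup.mk 1⟩ a
        rw [← mul_inv_eq_iff_eq_mul, ← map_inv, ← SemidirectProduct.inl_aut, mvA_apply, h2]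
        exact congrArg SemidirectProduct.inl (congrArg (fun z =>
          ofP (fun u : U => Pb A Uᶜ ⧸ Lk Λ A U u) (fun u : U => A u) ⟨⟨u, hu⟩, z⟩ a) h1)
      intro v w hvw a b
      by_cases hv : v ∈ U
      · by_cases hw : w ∈ U
        · exact absurd hvw (hind v hv w hw)
        · rw [dif_pos hv, dif_neg hw]
          exact (key v w hv hw hvw a b).symm
      · by_cases hw : w ∈ U
        · rw [dif_neg hv, dif_pos hw]
          exact key w v hw hv hvw.symm b a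
        · rw [dif_neg hv, dif_neg hw, MonoidHom.comp_apply, MonoidHom.comp_apply, ← map_mul,
            ← map_mul]
          congr 1
          exact Subtype.ext (h.comm hvw a.2 b.2))
  refine ⟨Φ, ?_, ?_⟩
  · intro b hb hb'
    have h1 : Φ.comp (Subgroup.inclusion (h.Pb_le Uᶜ)) = SemidirectProduct.inr := by
      refine sup_hom_ext (B := fun w : (Uᶜ : Set V) => A w) rfl _ _ ?_
      rintro ⟨w, hw⟩ x hx hx'
      have h2 := hΦ w x hx (h.le w hx)
      rw [dif_neg hw] at h2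
      exact h2
    exact DFunLike.congr_fun h1 ⟨b, hb⟩
  · intro u hu a ha ha'
    have h2 := hΦ u a ha ha'
    rw [dif_pos hu] at h2
    exact h2

theorem IsGraphProd.Bf_le (y : Ix Λ A U) : Bf y ≤ Nc A U := by
  intro x hx
  rw [mem_Bf] at hx
  have h1 := (inferInstance : (Nc A U).Normal).conj_mem _ (le_Nc y.1.2 hx) (xr y)
  have h2 : xr y * ((xr y)⁻¹ * x * xr y) * (xr y)⁻¹ = x := by group
  rwa [h2] at h1

theorem IsGraphProd.sup_Bf (h : IsGraphProd N Λ A) (hU : InvW N A U) :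
    ⨆ y : Ix Λ A U, Bf y = Nc A U := by
  refine le_antisymm (iSup_le fun y => IsGraphProd.Bf_le y) ?_
  obtain ⟨S, hS⟩ : ∃ S : Subgroup G, S = ⨆ y : Ix Λ A U, Bf y := ⟨_, rfl⟩
  rw [← hS]
  have hBS : ∀ y : Ix Λ A U, Bf y ≤ S := fun y => hS ▸ le_iSup _ y
  have hAS : ∀ u ∈ U, A u ≤ S := by
    intro u hu x hx
    refine hBS ⟨⟨u, hu⟩, QuotientGroup.mk 1⟩ ?_
    rw [h.coset]
    simpa using hx
  have hnorm : N ≤ Subgroup.normalizer (S : Set G) := by
    rw [← h.sup]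
    refine iSup_le fun v => ?_
    by_cases hv : v ∈ U
    · exact (hAS v hv).trans Subgroup.le_normalizer
    · have h1 : ∀ b ∈ A v, ∀ x ∈ S, b * x * b⁻¹ ∈ S := by
        intro b hb
        have h2 : S ≤ S.comap (MulAut.conj b).toMonoidHom := by
          conv_lhs => rw [hS]
          refine iSup_le ?_
          rintro ⟨u, c⟩ x hx
          obtain ⟨c, rfl⟩ := QuotientGroup.mk_surjective c
          rw [h.coset] at hx
          refine hBS ⟨u, QuotientGroup.mk (⟨b, le_Pb (show v ∈ Uᶜ from hv) hb⟩ * c)⟩ ?_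
          rw [h.coset]
          have e1 : (((⟨b, le_Pb (show v ∈ Uᶜ from hv) hb⟩ * c : Pb A Uᶜ)) : G)⁻¹ *
              ((MulAut.conj b).toMonoidHom x) *
              (((⟨b, le_Pb (show v ∈ Uᶜ from hv) hb⟩ * c : Pb A Uᶜ)) : G) =
              (c : G)⁻¹ * x * c := by
            show (b * (c : G))⁻¹ * (b * x * b⁻¹) * (b * (c : G)) = (c : G)⁻¹ * x * c
            group
          rw [e1]
          exact hx
        exact fun x hx => h2 hx
      intro b hb
      rw [Subgroup.mem_normalizer_iff]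
      intro x
      refine ⟨h1 b hb x, fun hx => ?_⟩
      have h2 := h1 b⁻¹ ((A v).inv_mem hb) _ hx
      have h3 : b⁻¹ * (b * x * b⁻¹) * b⁻¹⁻¹ = x := by group
      rwa [h3] at h2
  refine Nc_induction hU ?_
  intro n hn u hu a ha
  exact (Subgroup.mem_normalizer_iff.1 (hnorm hn) a).1 (hAS u hu ha)

/-- the isomorphism of a factor with `A u` -/
noncomputable def eB (y : Ix Λ A U) : Bf y →* A y.1 where
  toFun x := ⟨(xr y)⁻¹ * x * xr y, mem_Bf.1 x.2⟩
  map_one' := Subtype.ext (by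
    show (xr y)⁻¹ * 1 * xr y = 1
    group)
  map_mul' a b := Subtype.ext (by
    show (xr y)⁻¹ * (a * b : G) * xr y = (xr y)⁻¹ * a * xr y * ((xr y)⁻¹ * b * xr y)
    group)

/-- its inverse -/
noncomputable def eB' (y : Ix Λ A U) : A y.1 →* Bf y where
  toFun x := ⟨xr y * x * (xr y)⁻¹, mem_Bf.2 (by
    have : (xr y)⁻¹ * (xr y * (x : G) * (xr y)⁻¹) * xr y = x := by group
    rw [this]
    exact x.2)⟩
  map_one' := Subtype.ext (by
    show xr y * 1 * (xr y)⁻¹ = 1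
    group)
  map_mul' a b := Subtype.ext (by
    show xr y * (a * b : G) * (xr y)⁻¹ = xr y * a * (xr y)⁻¹ * (xr y * b * (xr y)⁻¹)
    group)

/-- **the normal closure of an independent set of factors is the free product of their conjugates by
the representatives of the cosets of the links** -/
theorem IsGraphProd.free (h : IsGraphProd N Λ A) [N.Normal] (hU : InvW N A U)
    (hind : ∀ u ∈ U, ∀ w ∈ U, ¬ Λ.Adj u w) :
    IsFreeProd (Nc A U) (Bf : Ix Λ A U → Subgroup G) := by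
  refine ⟨h.sup_Bf hU, ?_⟩
  obtain ⟨Φ, hΦ1, hΦ2⟩ := h.exists_Ph hind
  have hmem : ∀ z : CoprodI (fun y : Ix Λ A U => Bf y),
      CoprodI.lift (fun y : Ix Λ A U => (Bf y).subtype) z ∈ N := by
    intro z
    have h1 := CoprodI.lift_range_le (fun y : Ix Λ A U => Bf y)
      (fun y : Ix Λ A U => (Bf y).subtype) (s := N) (fun y => by
        rw [Subgroup.range_subtype]
        exact (IsGraphProd.Bf_le y).trans (Nc_le h.le))
    exact h1 ⟨z, rfl⟩
  let L : CoprodI (fun y : Ix Λ A U => Bf y) →* N :=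
    (CoprodI.lift fun y : Ix Λ A U => (Bf y).subtype).codRestrict N hmem
  let E : CoprodI (fun y : Ix Λ A U => Bf y) →*
      PP (fun u : U => Pb A Uᶜ ⧸ Lk Λ A U u) (fun u : U => A u) :=
    CoprodI.lift fun y => (ofP (fun u : U => Pb A Uᶜ ⧸ Lk Λ A U u) (fun u : U => A u) y).comp (eB y)
  let E' : PP (fun u : U => Pb A Uᶜ ⧸ Lk Λ A U u) (fun u : U => A u) →*
      CoprodI (fun y : Ix Λ A U => Bf y) :=
    CoprodI.lift fun y => (CoprodI.of (M := fun y : Ix Λ A U => Bf y) (i := y)).comp (eB' y)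
  have hEE : E'.comp E = MonoidHom.id _ := by
    apply CoprodI.ext_hom
    intro y
    ext a
    show E' (E (CoprodI.of (M := fun y : Ix Λ A U => Bf y) (i := y) a)) =
      CoprodI.of (M := fun y : Ix Λ A U => Bf y) (i := y) a
    have h1 : E (CoprodI.of (M := fun y : Ix Λ A U => Bf y) (i := y) a) =
        ofP (fun u : U => Pb A Uᶜ ⧸ Lk Λ A U u) (fun u : U => A u) y (eB y a) := by
      show CoprodI.lift _ _ = _
      rw [CoprodI.lift_of]
      rfl
    have h2 : E' (ofP (fun u : U => Pb A Uᶜ ⧸ Lk Λ A U u) (fun u : U => A u) y (eB y a)) =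
        CoprodI.of (M := fun y : Ix Λ A U => Bf y) (i := y) (eB' y (eB y a)) := by
      show CoprodI.lift _ _ = _
      rw [CoprodI.lift_of]
      rfl
    rw [h1, h2]
    congr 1
    apply Subtype.ext
    show xr y * ((xr y)⁻¹ * (a : G) * xr y) * (xr y)⁻¹ = a
    group
  have hΦL : Φ.comp L = SemidirectProduct.inl.comp E := by
    apply CoprodI.ext_hom
    rintro ⟨u, c⟩
    ext1 a
    show Φ (L (CoprodI.of (M := fun y : Ix Λ A U => Bf y) (i := ⟨u, c⟩) a)) =
      SemidirectProduct.inl (E (CoprodI.of (M := fun y : Ix Λ A U => Bf y) (i := ⟨u, c⟩) a))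
    have h1 : E (CoprodI.of (M := fun y : Ix Λ A U => Bf y) (i := ⟨u, c⟩) a) =
        ofP (fun u : U => Pb A Uᶜ ⧸ Lk Λ A U u) (fun u : U => A u) ⟨u, c⟩ (eB ⟨u, c⟩ a) := by
      show CoprodI.lift _ _ = _
      rw [CoprodI.lift_of]
      rfl
    obtain ⟨r, hr⟩ : ∃ r : Pb A Uᶜ, r = Quotient.out c := ⟨_, rfl⟩
    have hrc : (QuotientGroup.mk r : Pb A Uᶜ ⧸ Lk Λ A U u) = c := by
      rw [hr]
      exact Quotient.out_eq _
    have hxr : xr (⟨u, c⟩ : Ix Λ A U) = (r : G) := by rw [hr]; rfl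
    have hrN : (r : G) ∈ N := h.Pb_le _ r.2
    obtain ⟨a', ha'⟩ : ∃ a' : A u, a' = eB (⟨u, c⟩ : Ix Λ A U) a := ⟨_, rfl⟩
    have haa : (a : G) = r * a' * (r : G)⁻¹ := by
      rw [ha']
      show (a : G) = r * ((xr (⟨u, c⟩ : Ix Λ A U))⁻¹ * a * xr (⟨u, c⟩ : Ix Λ A U)) * (r : G)⁻¹
      rw [hxr]
      group
    have h2 : L (CoprodI.of (M := fun y : Ix Λ A U => Bf y) (i := ⟨u, c⟩) a) =
        ⟨r, hrN⟩ * ⟨a', h.le u a'.2⟩ * ⟨r, hrN⟩⁻¹ := by
      apply Subtype.ext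
      show CoprodI.lift (fun y : Ix Λ A U => (Bf y).subtype) _ = r * (a' : G) * (r : G)⁻¹
      rw [CoprodI.lift_of]
      exact haa
    have h3 := mv_of (fun u : U => Pb A Uᶜ ⧸ Lk Λ A U u) (fun u : U => A u) r
      ⟨u, QuotientGroup.mk 1⟩ a'
    rw [h1, h2, map_mul, map_mul, map_inv, hΦ1 r r.2 hrN, hΦ2 u u.2 a' a'.2, ← map_inv,
      ← SemidirectProduct.inl_aut, mvA_apply]
    congr 1
    refine h3.trans ?_
    rw [← ha']
    have h4 : r • (QuotientGroup.mk 1 : Pb A Uᶜ ⧸ Lk Λ A U u) = c := by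
      rw [← hrc]
      show QuotientGroup.mk (r * 1) = _
      rw [mul_one]
    exact congrArg (fun z => ofP (fun u : U => Pb A Uᶜ ⧸ Lk Λ A U u) (fun u : U => A u)
          ⟨u, z⟩ a') h4
  rw [injective_iff_map_eq_one]
  intro z hz
  have h1 : L z = 1 := Subtype.ext hz
  have h2 := DFunLike.congr_fun hΦL z
  rw [MonoidHom.comp_apply, h1, map_one, MonoidHom.comp_apply] at h2
  have h3 : E z = 1 := SemidirectProduct.inl_injective (h2.symm.trans (map_one _).symm)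
  have h4 := DFunLike.congr_fun hEE z
  rw [MonoidHom.comp_apply, h3, map_one] at h4
  exact h4.symm

end Pool.Agent.D0H25.GK
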