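import Pool.Agent.D0H25.GK.Step
import Pool.Agent.R942.FJ.Det

/-!
# Extensions by graph products: the general case
-/

set_option autoImplicit false

namespace Pool.Agent.D0H25.GK

open Pool.Agent.Y110.FJ
open Pool.Agent.R941.FJ (C_equiv C_le C_cyc mem_sup_normal)
open Pool.Agent.Y462.SS (Closed)
open Pool.Agent.R684.FP (IsFreeProd FbC main_all cyc_real)

variable {C : ∀ (G : Type) [Group G], Prop}

/-! ### subgroups which contain the graph product -/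

section sub

variable {G V : Type} [Group G] {N : Subgroup G} {Λ : SimpleGraph V} {A : V → Subgroup G}

theorem map_subtype_of_le {H A : Subgroup G} (h : A ≤ H) : (A.subgroupOf H).map H.subtype = A := by
  rw [Subgroup.subgroupOf_map_subtype, inf_eq_left.2 h]

theorem sup_subgroupOf {I : Type} {B : I → Subgroup G} {N H : Subgroup G} (hN : ⨆ i, B i = N)
    (hNH : N ≤ H) : ⨆ i, (B i).subgroupOf H = N.subgroupOf H := by
  have hle : ∀ i, B i ≤ H := fun i => (le_iSup B i).trans (hN.le.trans hNH)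
  apply Subgroup.map_injective H.subtype_injective
  rw [Subgroup.map_iSup, map_subtype_of_le hNH, ← hN]
  congr 1
  funext i
  exact map_subtype_of_le (hle i)

theorem IsGraphProd.inSub (h : IsGraphProd N Λ A) {H : Subgroup G} (hNH : N ≤ H) :
    IsGraphProd (N.subgroupOf H) Λ (fun v => (A v).subgroupOf H) := by
  refine of_univ (sup_subgroupOf h.sup hNH) ?_ ?_
  · intro v w hvw a ha b hb
    exact Subtype.ext (h.comm hvw ha hb)
  · intro K _ φ hφ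
    obtain ⟨Φ, hΦ⟩ := h.exists_hom (H := K)
      (fun v => (φ v).comp (Subgroup.subgroupOfEquivOfLe ((h.le v).trans hNH)).symm.toMonoidHom)
      (fun v w hvw a b => hφ v w hvw _ _)
    refine ⟨Φ.comp (Subgroup.subgroupOfEquivOfLe hNH).toMonoidHom, ?_⟩
    intro v a ha ha'
    exact hΦ v a ha ha'

theorem FacC.inSub (hC : Closed C) (hB : FacC C A Set.univ) {H : Subgroup G}
    (hA : ∀ v, A v ≤ H) : FacC C (fun v => (A v).subgroupOf H) Set.univ := by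
  rintro v - g hg
  have h1 : ∀ x, x ∈ A v ↔ (g : G) * x * (g : G)⁻¹ ∈ A v := by
    intro x
    constructor
    · intro hx
      exact (hg ⟨x, hA v hx⟩).1 hx
    · intro hx
      have h2 : x ∈ H := by
        have h3 := H.mul_mem (H.mul_mem (H.inv_mem g.2) (hA v hx)) g.2
        have h4 : (g : G)⁻¹ * ((g : G) * x * (g : G)⁻¹) * g = x := by group
        rwa [h4] at h3
      exact (hg ⟨x, h2⟩).2 hx
  have h2 := hB v (Set.mem_univ v) g h1
  have h3 : ((A v).subgroupOf H ⊔ Subgroup.zpowers g).map H.subtype =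
      A v ⊔ Subgroup.zpowers (g : G) := by
    rw [Subgroup.map_sup, map_subtype_of_le (hA v), MonoidHom.map_zpowers]
    rfl
  rw [← h3] at h2
  exact C_equiv hC (((A v).subgroupOf H ⊔ Subgroup.zpowers g).equivMapOfInjective
      H.subtype H.subtype_injective) h2

end sub

/-! ### pairs of an element and a permutation -/

section act

variable {G V : Type} [Group G]

/-- the pairs of an element and a permutation of the factors up to conjugation in `N` -/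
def Act (N : Subgroup G) [N.Normal] (A : V → Subgroup G) : Subgroup (G × Equiv.Perm V) where
  carrier := {p | ∀ v, ∃ n ∈ N, ∀ x, x ∈ A v ↔ n * (p.1 * x * p.1⁻¹) * n⁻¹ ∈ A (p.2 v)}
  one_mem' := by
    intro v
    refine ⟨1, N.one_mem, fun x => ?_⟩
    have : (1 : G) * ((1 : G × Equiv.Perm V).1 * x * (1 : G × Equiv.Perm V).1⁻¹) * 1⁻¹ = x := by
      simp
    rw [this]
    rfl
  mul_mem' := by
    rintro ⟨p, σ⟩ ⟨q, τ⟩ h1 h2 v
    obtain ⟨n, hn, h3⟩ := h2 v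
    obtain ⟨m, hm, h4⟩ := h1 (τ v)
    refine ⟨m * (p * n * p⁻¹), N.mul_mem hm (‹N.Normal›.conj_mem n hn p), fun x => ?_⟩
    rw [h3, h4]
    have : m * (p * (n * (q * x * q⁻¹) * n⁻¹) * p⁻¹) * m⁻¹ =
      m * (p * n * p⁻¹) * ((p * q) * x * (p * q)⁻¹) * (m * (p * n * p⁻¹))⁻¹ := by group
    show m * (p * (n * (q * x * q⁻¹) * n⁻¹) * p⁻¹) * m⁻¹ ∈ A (σ (τ v)) ↔
      m * (p * n * p⁻¹) * ((p * q) * x * (p * q)⁻¹) * (m * (p * n * p⁻¹))⁻¹ ∈ A (σ (τ v))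
    rw [this]
  inv_mem' := by
    rintro ⟨p, σ⟩ h1 v
    obtain ⟨n, hn, h3⟩ := h1 (σ⁻¹ v)
    refine ⟨p⁻¹ * n⁻¹ * p, by simpa using ‹N.Normal›.conj_mem n⁻¹ (N.inv_mem hn) p⁻¹, fun x => ?_⟩
    show x ∈ A v ↔ (p⁻¹ * n⁻¹ * p) * (p⁻¹ * x * p⁻¹⁻¹) * (p⁻¹ * n⁻¹ * p)⁻¹ ∈ A (σ⁻¹ v)
    rw [h3]
    show x ∈ A v ↔ n * (p * ((p⁻¹ * n⁻¹ * p) * (p⁻¹ * x * p⁻¹⁻¹) * (p⁻¹ * n⁻¹ * p)⁻¹) * p⁻¹) *
      n⁻¹ ∈ A (σ (σ⁻¹ v))
    have e1 : n * (p * ((p⁻¹ * n⁻¹ * p) * (p⁻¹ * x * p⁻¹⁻¹) * (p⁻¹ * n⁻¹ * p)⁻¹) * p⁻¹) * n⁻¹ =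
        x := by group
    rw [e1, show σ (σ⁻¹ v) = v from σ.apply_symm_apply v]

theorem mem_Act {N : Subgroup G} [N.Normal] {A : V → Subgroup G} {g : G} {σ : Equiv.Perm V} :
    (g, σ) ∈ Act N A ↔ ∀ v, ∃ n ∈ N, ∀ x, x ∈ A v ↔ n * (g * x * g⁻¹) * n⁻¹ ∈ A (σ v) := Iff.rfl

end act

/-! ### cyclic quotients, finitely many orbits -/

section cyc

variable {P V : Type} [Group P] {N : Subgroup P} {Λ : SimpleGraph V} {A : V → Subgroup P}

theorem fin_index [N.Normal] {g : P} (hgen : N ⊔ Subgroup.zpowers g = ⊤) {m : ℕ} (hm : 0 < m) :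
    (N ⊔ Subgroup.zpowers (g ^ m)).FiniteIndex := by
  have h1 : ∀ x : P, ∃ i : Fin m, (g ^ (i : ℕ))⁻¹ * x ∈ N ⊔ Subgroup.zpowers (g ^ m) := by
    intro x
    have hx : x ∈ N ⊔ Subgroup.zpowers g := hgen ▸ Subgroup.mem_top x
    obtain ⟨a, ha, b, hb, rfl⟩ := mem_sup_normal.1 hx
    obtain ⟨k, rfl⟩ := Subgroup.mem_zpowers_iff.1 hb
    have hm' : (0 : ℤ) < m := by exact_mod_cast hm
    refine ⟨⟨(k % m).toNat, ?_⟩, ?_⟩
    · have h2 := Int.emod_lt_of_pos k hm'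
      have h3 := Int.emod_nonneg k hm'.ne'
      omega
    · have h3 := Int.emod_nonneg k hm'.ne'
      have h4 : g ^ (k % m).toNat = g ^ (k % m) := by
        rw [← zpow_natCast, Int.toNat_of_nonneg h3]
      show (g ^ (k % m).toNat)⁻¹ * (a * g ^ k) ∈ _
      rw [h4]
      have h5 : (g ^ (k % m))⁻¹ * (a * g ^ k) =
          ((g ^ (k % m))⁻¹ * a * (g ^ (k % m))⁻¹⁻¹) * ((g ^ m) ^ (k / m)) := by
        have h6 : (g ^ m) ^ (k / m) = g ^ (m * (k / m)) := by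
          rw [zpow_mul, zpow_natCast]
        have h7 : g ^ k = g ^ (k % m) * g ^ (m * (k / m)) := by
          rw [← zpow_add, Int.emod_add_mul_ediv]
        rw [h6, h7]
        group
      rw [h5]
      exact Subgroup.mul_mem _ (Subgroup.mem_sup_left (‹N.Normal›.conj_mem a ha _))
        (Subgroup.mem_sup_right ⟨k / m, rfl⟩)
  have h2 : Function.Surjective (fun i : Fin m =>
      (QuotientGroup.mk (g ^ (i : ℕ)) : P ⧸ (N ⊔ Subgroup.zpowers (g ^ m)))) := by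
    intro y
    obtain ⟨x, rfl⟩ := QuotientGroup.mk_surjective y
    obtain ⟨i, hi⟩ := h1 x
    exact ⟨i, QuotientGroup.eq.2 hi⟩
  have h3 : Finite (P ⧸ (N ⊔ Subgroup.zpowers (g ^ m))) := Finite.of_surjective _ h2
  exact Subgroup.finiteIndex_of_finite_quotient

/-- **cyclic quotients and finitely many orbits** -/
theorem IsGraphProd.cyc_case (h : IsGraphProd N Λ A) (hC : ClosedE C) (hF : FbC C) [N.Normal] {g : P}
    (hgen : N ⊔ Subgroup.zpowers g = ⊤) (σ : Equiv.Perm V)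
    (hσ : ∀ v w, Λ.Adj (σ v) (σ w) ↔ Λ.Adj v w) {F : Set V} (hFf : F.Finite)
    (horb : ∀ v, ∃ w ∈ F, ∃ i : ℤ, v = (σ ^ i) w) (hact : (g, σ) ∈ Act N A)
    (ha : ∀ v, ∃ m : ℕ, 0 < m ∧ ∀ i : ℤ, ¬ Λ.Adj v ((σ ^ (m * i)) v))
    (hB : FacC C A Set.univ) : C P := by
  classical
  -- a common exponent
  obtain ⟨m, hm, ham⟩ : ∃ m : ℕ, 0 < m ∧ ∀ w ∈ F, ∀ i : ℤ, ¬ Λ.Adj w ((σ ^ (m * i)) w) := by
    choose μ hμ1 hμ2 using ha
    refine ⟨∏ w ∈ hFf.toFinset, μ w, Finset.prod_pos fun w _ => hμ1 w, ?_⟩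
    intro w hw i
    obtain ⟨l, hl⟩ : μ w ∣ ∏ w ∈ hFf.toFinset, μ w :=
      Finset.dvd_prod_of_mem μ (hFf.mem_toFinset.2 hw)
    have h1 := hμ2 w (l * i)
    rw [hl]
    have h2 : ((μ w * l : ℕ) : ℤ) * i = μ w * (l * i) := by push_cast; ring
    rw [h2]
    exact h1
  have hσz : ∀ i : ℤ, ∀ v w, Λ.Adj ((σ ^ i) v) ((σ ^ i) w) ↔ Λ.Adj v w := by
    intro i
    induction i using Int.induction_on with
    | zero => intro v w; simp
    | succ i ih =>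
      intro v w
      rw [add_comm, zpow_add, zpow_one, Equiv.Perm.mul_apply, Equiv.Perm.mul_apply, hσ, ih]
    | pred i ih =>
      intro v w
      rw [← ih v w, ← hσ ((σ ^ (-(i : ℤ) - 1)) v), ← Equiv.Perm.mul_apply, ← Equiv.Perm.mul_apply,
        ← zpow_one_add]
      have : (1 : ℤ) + (-(i : ℤ) - 1) = -(i : ℤ) := by ring
      rw [this]
  have ham' : ∀ v, ∀ i : ℤ, ¬ Λ.Adj v ((σ ^ (m * i)) v) := by
    intro v i hadj
    obtain ⟨w, hw, j, rfl⟩ := horb v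
    rw [← Equiv.Perm.mul_apply, ← zpow_add, add_comm, zpow_add, Equiv.Perm.mul_apply, hσz] at hadj
    exact ham w hw i hadj
  -- the colours
  let r : Setoid V :=
    { r := fun v w => ∃ i : ℤ, w = (σ ^ (m * i)) v
      iseqv :=
        { refl := fun v => ⟨0, by simp⟩
          symm := by
            rintro v _ ⟨i, rfl⟩
            refine ⟨-i, ?_⟩
            rw [← Equiv.Perm.mul_apply, ← zpow_add]
            simp
          trans := by
            rintro v _ _ ⟨i, rfl⟩ ⟨j, rfl⟩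
            refine ⟨i + j, ?_⟩
            rw [← Equiv.Perm.mul_apply, ← zpow_add]
            congr 2
            ring } }
  have hfin : Finite (Quotient r) := by
    have : Finite F := hFf
    refine Finite.of_surjective (fun p : F × Fin m =>
      (Quotient.mk r ((σ ^ ((p.2 : ℕ) : ℤ)) p.1))) ?_
    intro y
    obtain ⟨v, rfl⟩ := Quotient.exists_rep y
    obtain ⟨w, hw, k, rfl⟩ := horb v
    have hm' : (0 : ℤ) < m := by exact_mod_cast hm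
    have h3 := Int.emod_nonneg k hm'.ne'
    have h2 := Int.emod_lt_of_pos k hm'
    refine ⟨(⟨w, hw⟩, ⟨(k % m).toNat, by omega⟩), ?_⟩
    refine Quotient.sound ⟨k / m, ?_⟩
    show (σ ^ k) w = (σ ^ (m * (k / m))) ((σ ^ (((k % m).toNat : ℕ) : ℤ)) w)
    rw [← Equiv.Perm.mul_apply, ← zpow_add, Int.toNat_of_nonneg h3, add_comm, Int.emod_add_mul_ediv]
  obtain ⟨k, ⟨e⟩⟩ := Finite.exists_equiv_fin (Quotient r)
  obtain ⟨c, hc⟩ : ∃ c : V → ℕ, c = fun v => (e (Quotient.mk r v) : ℕ) := ⟨_, rfl⟩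
  have hcr : ∀ v w, c v = c w ↔ ∃ i : ℤ, w = (σ ^ (m * i)) v := by
    intro v w
    rw [hc]
    constructor
    · intro h1
      exact Quotient.exact (e.injective (Fin.ext h1))
    · intro h1
      exact congrArg (fun y => (e y : ℕ)) (Quotient.sound h1)
  -- the subgroup of finite index
  obtain ⟨H, hH⟩ : ∃ H : Subgroup P, H = N ⊔ Subgroup.zpowers (g ^ m) := ⟨_, rfl⟩
  have hNH : N ≤ H := hH ▸ le_sup_left
  have hHf : H.FiniteIndex := hH ▸ fin_index hgen hm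
  refine hC.base.finiteIndex P H hHf ?_
  refine core hC hF k (h.inSub hNH) c (fun v => by rw [hc]; exact (e _).2) ?_ ?_
    (hB.inSub hC.base (fun v => (h.le v).trans hNH)) ?_
  · intro v w hvw hadj
    obtain ⟨i, rfl⟩ := (hcr v w).1 hvw
    exact ham' v i hadj
  · rintro v ⟨p, hp⟩
    rw [hH] at hp
    obtain ⟨a, ha', b, hb, rfl⟩ := mem_sup_normal.1 hp
    obtain ⟨i, rfl⟩ := Subgroup.mem_zpowers_iff.1 hb
    have h1 : (g ^ (m * i), σ ^ (m * i)) ∈ Act N A := (Act N A).zpow_mem hact (m * i)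
    obtain ⟨n, hn, h2⟩ := mem_Act.1 h1 v
    refine ⟨(σ ^ (m * i)) v, ((hcr _ _).2 ⟨i, rfl⟩).symm, ⟨n * a⁻¹, hNH (N.mul_mem hn
      (N.inv_mem ha'))⟩, N.mul_mem hn (N.inv_mem ha'), ?_⟩
    rintro ⟨x, hx⟩
    rw [Subgroup.mem_subgroupOf, Subgroup.mem_subgroupOf]
    show x ∈ A v ↔ (n * a⁻¹) * (a * (g ^ m) ^ i * x * (a * (g ^ m) ^ i)⁻¹) * (n * a⁻¹)⁻¹ ∈
      A ((σ ^ (m * i)) v)
    rw [h2]
    have h3 : n * (g ^ ((m : ℤ) * i) * x * (g ^ ((m : ℤ) * i))⁻¹) * n⁻¹ =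
        (n * a⁻¹) * (a * (g ^ m) ^ i * x * (a * (g ^ m) ^ i)⁻¹) * (n * a⁻¹)⁻¹ := by
      rw [zpow_mul, zpow_natCast]
      group
    rw [h3]
  · refine Pool.Agent.R941.FJ.quot hC.base H ?_
    have h1 : H.map (QuotientGroup.mk' N) = Subgroup.zpowers (QuotientGroup.mk' N (g ^ m)) := by
      rw [hH, Subgroup.map_sup, MonoidHom.map_zpowers, QuotientGroup.map_mk'_self, bot_sup_eq]
    rw [h1]
    exact C_cyc hC.base _

end cyc

/-! ### the general theorem -/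

section gen

variable {G V : Type} [Group G] {N : Subgroup G} {Λ : SimpleGraph V} {A : V → Subgroup G}

theorem Pb_mono {A : V → Subgroup G} {W W' : Set V} (h : W ⊆ W') : Pb A W ≤ Pb A W' :=
  iSup_le fun w => le_Pb (h w.2)

theorem exists_fin {n : G} (hn : n ∈ ⨆ v, A v) : ∃ F : Set V, F.Finite ∧ n ∈ Pb A F := by
  induction hn using Subgroup.iSup_induction' with
  | hp v x hx =>
    exact ⟨{v}, Set.finite_singleton v, (le_Pb (A := A) (W := {v}) (Set.mem_singleton v)) hx⟩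
  | h1 => exact ⟨∅, Set.finite_empty, Subgroup.one_mem _⟩
  | hmul x y _ _ hx hy =>
    obtain ⟨F1, hF1, h1⟩ := hx
    obtain ⟨F2, hF2, h2⟩ := hy
    have h3 : F1 ⊆ F1 ∪ F2 := Set.subset_union_left
    have h4 : F2 ⊆ F1 ∪ F2 := Set.subset_union_right
    exact ⟨F1 ∪ F2, hF1.union hF2, Subgroup.mul_mem _ (Pb_mono h3 h1) (Pb_mono h4 h2)⟩

theorem exists_fin_set (hN : ⨆ v, A v = N) {E : Set G} (hE : E.Finite) (hEN : E ⊆ N) :
    ∃ F : Set V, F.Finite ∧ E ⊆ Pb A F := by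
  induction E, hE using Set.Finite.induction_on with
  | empty => exact ⟨∅, Set.finite_empty, Set.empty_subset _⟩
  | @insert x E _ _ ih =>
    obtain ⟨F1, hF1, h1⟩ := ih ((Set.subset_insert x E).trans hEN)
    have hxs : x ∈ ⨆ v, A v := by
      rw [hN]
      exact hEN (Set.mem_insert x E)
    obtain ⟨F2, hF2, h2⟩ := exists_fin (A := A) (n := x) hxs
    have h3 : F1 ⊆ F1 ∪ F2 := Set.subset_union_left
    have h4 : F2 ⊆ F1 ∪ F2 := Set.subset_union_right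
    refine ⟨F1 ∪ F2, hF1.union hF2, Set.insert_subset (Pb_mono h4 h2) ?_⟩
    intro y hy
    exact Pb_mono h3 (h1 hy)

/-- **extensions by graph products** -/
theorem main (hC : ClosedE C) (hF : FbC C) [N.Normal] (h : IsGraphProd N Λ A) [MulAction G V]
    (hΛ : ∀ (g : G) (v w : V), Λ.Adj v w → Λ.Adj (g • v) (g • w))
    (hact : ∀ (g : G) (v : V), ∃ n ∈ N, ∀ x, x ∈ A v ↔ n * (g * x * g⁻¹) * n⁻¹ ∈ A (g • v))
    (ha : ∀ (g : G) (v : V), ∃ m : ℕ, 0 < m ∧ ∀ i : ℤ, ¬ Λ.Adj v (g ^ (m * i) • v))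
    (hB : FacC C A Set.univ) (hQ : C (G ⧸ N)) : C G := by
  refine Pool.Agent.R942.FJ.main_detected hC N (fun g => ?_) hQ
  intro E hE hEN
  obtain ⟨F, hFf, hEF⟩ := exists_fin_set h.sup hE hEN
  obtain ⟨σ, hσ⟩ : ∃ σ : Equiv.Perm V, σ = MulAction.toPermHom G V g := ⟨_, rfl⟩
  have hσz : ∀ (i : ℤ) (v : V), (σ ^ i) v = g ^ i • v := by
    intro i v
    rw [hσ, ← map_zpow]
    rfl
  obtain ⟨U, hU⟩ : ∃ U : Set V, U = {v | ¬ ∃ w ∈ F, ∃ i : ℤ, v = (σ ^ i) w} := ⟨_, rfl⟩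
  have hUc : ∀ v, v ∈ Uᶜ ↔ ∃ w ∈ F, ∃ i : ℤ, v = (σ ^ i) w := fun v => by
    rw [hU]
    exact not_not
  have hUσ : ∀ (i : ℤ) (v : V), (σ ^ i) v ∈ Uᶜ ↔ v ∈ Uᶜ := by
    have h1 : ∀ (i : ℤ) (v : V), v ∈ Uᶜ → (σ ^ i) v ∈ Uᶜ := by
      intro i v hv
      obtain ⟨w, hw, j, rfl⟩ := (hUc v).1 hv
      refine (hUc _).2 ⟨w, hw, i + j, ?_⟩
      rw [← Equiv.Perm.mul_apply, zpow_add]
    intro i v
    refine ⟨fun hv => ?_, h1 i v⟩
    have h2 := h1 (-i) _ hv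
    rw [← Equiv.Perm.mul_apply, ← zpow_add] at h2
    simpa using h2
  -- the group `N ⟨g⟩`
  obtain ⟨G1, hG1⟩ : ∃ G1 : Subgroup G, G1 = N ⊔ Subgroup.zpowers g := ⟨_, rfl⟩
  rw [← hG1]
  have hNG : N ≤ G1 := hG1 ▸ le_sup_left
  have hgG : g ∈ G1 := hG1 ▸ Subgroup.mem_sup_right (Subgroup.mem_zpowers g)
  have hAG : ∀ v, A v ≤ G1 := fun v => (h.le v).trans hNG
  obtain ⟨A1, hA1⟩ : ∃ A1 : V → Subgroup G1, A1 = fun v => (A v).subgroupOf G1 := ⟨_, rfl⟩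
  have h1 : IsGraphProd (N.subgroupOf G1) Λ A1 := hA1 ▸ h.inSub hNG
  have hn1 : (N.subgroupOf G1).Normal := inferInstance
  have hB1 : FacC C A1 Set.univ := hA1 ▸ hB.inSub hC.base hAG
  have hgen1 : N.subgroupOf G1 ⊔ Subgroup.zpowers (⟨g, hgG⟩ : G1) = ⊤ := by
    apply Subgroup.map_injective G1.subtype_injective
    rw [Subgroup.map_sup, map_subtype_of_le hNG, MonoidHom.map_zpowers, ← MonoidHom.range_eq_map,
      Subgroup.range_subtype]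
    exact hG1.symm
  have hact1 : ((⟨g, hgG⟩ : G1), σ) ∈ Act (N.subgroupOf G1) A1 := by
    intro v
    obtain ⟨n, hn, h2⟩ := hact g v
    refine ⟨⟨n, hNG hn⟩, hn, fun x => ?_⟩
    have h3 := h2 x
    have h4 := hσz 1 v
    rw [zpow_one, zpow_one] at h4
    rw [hA1]
    show (x : G) ∈ A v ↔ n * (g * x * g⁻¹) * n⁻¹ ∈ A (σ v)
    rw [h4]
    exact h3
  have hInv : Inv (N.subgroupOf G1) A1 U := by
    intro u hu p
    have hp : p ∈ N.subgroupOf G1 ⊔ Subgroup.zpowers (⟨g, hgG⟩ : G1) := hgen1 ▸ Subgroup.mem_top p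
    obtain ⟨a, ha', b, hb, rfl⟩ := mem_sup_normal.1 hp
    obtain ⟨i, rfl⟩ := Subgroup.mem_zpowers_iff.1 hb
    have h3 : ((⟨g, hgG⟩ : G1) ^ i, σ ^ i) ∈ Act (N.subgroupOf G1) A1 :=
      (Act (N.subgroupOf G1) A1).zpow_mem hact1 i
    obtain ⟨n, hn, h2⟩ := mem_Act.1 h3 u
    refine ⟨(σ ^ i) u, ?_, n * a⁻¹, Subgroup.mul_mem _ hn (Subgroup.inv_mem _ ha'), ?_⟩
    · by_contra h5
      exact (hUσ i u).1 h5 hu
    · intro x
      rw [h2]
      have h6 : n * ((⟨g, hgG⟩ : G1) ^ i * x * ((⟨g, hgG⟩ : G1) ^ i)⁻¹) * n⁻¹ =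
          n * a⁻¹ * (a * (⟨g, hgG⟩ : G1) ^ i * x * (a * (⟨g, hgG⟩ : G1) ^ i)⁻¹) * (n * a⁻¹)⁻¹ := by
        group
      rw [h6]
  have hq := h1.quot hInv.toW
  refine ⟨G1 ⧸ Nc A1 U, inferInstance, QuotientGroup.mk' (Nc A1 U), ?_, ?_⟩
  · -- the quotient is in the class
    have hNn : ((N.subgroupOf G1).map (QuotientGroup.mk' (Nc A1 U))).Normal :=
      Subgroup.Normal.map inferInstance _ (QuotientGroup.mk'_surjective _)
    have hUσ' : ∀ v, σ v ∈ Uᶜ ↔ v ∈ Uᶜ := fun v => by simpa using hUσ 1 v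
    obtain ⟨σ', hσ'⟩ : ∃ σ' : Equiv.Perm (Uᶜ : Set V), σ' = σ.subtypePerm hUσ' := ⟨_, rfl⟩
    have hσ'z : ∀ (i : ℤ) (v : (Uᶜ : Set V)), (((σ' ^ i) v : (Uᶜ : Set V)) : V) = (σ ^ i) v := by
      intro i v
      rw [hσ', Equiv.Perm.subtypePerm_zpow]
      rfl
    have hσ'1 : ∀ (v : (Uᶜ : Set V)), ((σ' v : (Uᶜ : Set V)) : V) = σ v := by
      intro v
      simpa using hσ'z 1 v
    refine hq.cyc_case hC hF (g := QuotientGroup.mk' (Nc A1 U) ⟨g, hgG⟩) ?_ σ' ?_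
      (F := Subtype.val ⁻¹' F) (hFf.preimage Subtype.val_injective.injOn) ?_ ?_ ?_ ?_
    · rw [← MonoidHom.map_zpowers, ← Subgroup.map_sup, hgen1, ← MonoidHom.range_eq_map,
        MonoidHom.range_eq_top]
      exact QuotientGroup.mk'_surjective _
    · intro v w
      show Λ.Adj ((σ' v : (Uᶜ : Set V)) : V) ((σ' w : (Uᶜ : Set V)) : V) ↔ Λ.Adj v w
      rw [hσ'1, hσ'1]
      have h2 := hσz 1
      simp only [zpow_one] at h2
      rw [h2, h2]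
      refine ⟨fun h3 => ?_, hΛ g v w⟩
      have h4 := hΛ g⁻¹ _ _ h3
      rwa [inv_smul_smul, inv_smul_smul] at h4
    · rintro ⟨v, hv⟩
      obtain ⟨w, hw, i, rfl⟩ := (hUc v).1 hv
      refine ⟨⟨w, (hUc w).2 ⟨w, hw, 0, by simp⟩⟩, hw, i, ?_⟩
      apply Subtype.ext
      rw [hσ'z]
    · rintro ⟨v, hv⟩
      obtain ⟨n, hn, h2⟩ := mem_Act.1 hact1 v
      refine ⟨QuotientGroup.mk' _ n, ⟨n, hn, rfl⟩, fun x => ?_⟩
      have h3 := map_conj (A := A1 v) (B := A1 (σ v)) (k := n * ⟨g, hgG⟩) (by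
        intro x
        rw [h2]
        have : n * (⟨g, hgG⟩ * x * (⟨g, hgG⟩ : G1)⁻¹) * n⁻¹ =
          (n * ⟨g, hgG⟩) * x * (n * (⟨g, hgG⟩ : G1))⁻¹ := by group
        rw [this]) (QuotientGroup.mk' (Nc A1 U)) x
      have h4 : QuotientGroup.mk' (Nc A1 U) (n * ⟨g, hgG⟩) * x *
          (QuotientGroup.mk' (Nc A1 U) (n * ⟨g, hgG⟩))⁻¹ =
          QuotientGroup.mk' (Nc A1 U) n * (QuotientGroup.mk' (Nc A1 U) ⟨g, hgG⟩ * x *
            (QuotientGroup.mk' (Nc A1 U) ⟨g, hgG⟩)⁻¹) * (QuotientGroup.mk' (Nc A1 U) n)⁻¹ := by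
        rw [map_mul]
        group
      rw [h4] at h3
      have h5 : (σ' ⟨v, hv⟩ : V) = σ v := hσ'1 ⟨v, hv⟩
      show x ∈ (A1 v).map (QuotientGroup.mk' (Nc A1 U)) ↔ _ ∈ (A1 (σ' ⟨v, hv⟩ : V)).map _
      rw [h5]
      exact h3
    · rintro ⟨v, hv⟩
      obtain ⟨m, hm, h2⟩ := ha g v
      refine ⟨m, hm, fun i hadj => h2 i ?_⟩
      have h3 : Λ.Adj v (((σ' ^ ((m : ℤ) * i)) ⟨v, hv⟩ : (Uᶜ : Set V)) : V) := hadj
      rw [hσ'z, hσz] at h3
      exact h3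
    · refine h1.facC_quot hC hInv.toW ?_ hB1
      intro v p
      have hp : p ∈ N.subgroupOf G1 ⊔ Subgroup.zpowers (⟨g, hgG⟩ : G1) :=
        hgen1 ▸ Subgroup.mem_top p
      obtain ⟨a, ha', b, hb, rfl⟩ := mem_sup_normal.1 hp
      obtain ⟨i, rfl⟩ := Subgroup.mem_zpowers_iff.1 hb
      have h3 : ((⟨g, hgG⟩ : G1) ^ i, σ ^ i) ∈ Act (N.subgroupOf G1) A1 :=
        (Act (N.subgroupOf G1) A1).zpow_mem hact1 i
      obtain ⟨n, hn, h2⟩ := mem_Act.1 h3 v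
      refine ⟨(σ ^ i) v, n * a⁻¹, Subgroup.mul_mem _ hn (Subgroup.inv_mem _ ha'), ?_⟩
      intro x
      rw [h2]
      have h6 : n * ((⟨g, hgG⟩ : G1) ^ i * x * ((⟨g, hgG⟩ : G1) ^ i)⁻¹) * n⁻¹ =
          n * a⁻¹ * (a * (⟨g, hgG⟩ : G1) ^ i * x * (a * (⟨g, hgG⟩ : G1) ^ i)⁻¹) * (n * a⁻¹)⁻¹ := by
        group
      rw [h6]
  · -- injectivity
    intro x hx hx1
    have hxF : (x : G) ∈ Pb A F := (Subgroup.closure_le _).2 hEF hx
    have hxN : (x : G) ∈ N := h.Pb_le F hxF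
    have hFU : F ⊆ Uᶜ := fun w hw => (hUc w).2 ⟨w, hw, 0, by simp⟩
    have h2 : x ∈ Pb A1 Uᶜ := by
      have h3 : Pb A Uᶜ ≤ (Pb A1 Uᶜ).map G1.subtype := by
        refine iSup_le ?_
        rintro ⟨w, hw⟩ y hy
        refine ⟨⟨y, hAG w hy⟩, le_Pb hw ?_, rfl⟩
        rw [hA1]
        exact hy
      obtain ⟨y, hy, hyx⟩ := h3 (Pb_mono hFU hxF)
      have : y = x := Subtype.ext hyx
      exact this ▸ hy
    have h3 : x ∈ Nc A1 U := (QuotientGroup.eq_one_iff x).1 hx1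
    have hxN1 : x ∈ N.subgroupOf G1 := hxN
    have h4 := (h1.mem_Nc_iff hInv.toW hxN1).1 h3
    rw [h1.ret_Pb h2 hxN1] at h4
    exact congrArg Subtype.val h4

end gen

end Pool.Agent.D0H25.GK
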