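import Pool.Agent.D0H25.GK.Free

/-!
# One step: killing an independent class of factors
-/

set_option autoImplicit false

namespace Pool.Agent.D0H25.GK

open Pool.Agent.Y110.FJ
open Pool.Agent.R941.FJ (C_equiv C_le C_cyc mem_sup_normal)
open Pool.Agent.Y462.SS (Closed)
open Pool.Agent.R684.FP (IsFreeProd FbC main_all cyc_real)

variable {C : ∀ (G : Type) [Group G], Prop}
variable {G V : Type} [Group G] {N : Subgroup G} {Λ : SimpleGraph V} {A : V → Subgroup G} {U : Set V}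

/-- the condition on the extensions of the factors by cyclic groups -/
def FacC (C : ∀ (G : Type) [Group G], Prop) {G V : Type} [Group G] (A : V → Subgroup G)
    (U : Set V) : Prop :=
  ∀ u ∈ U, ∀ g : G, (∀ x, x ∈ A u ↔ g * x * g⁻¹ ∈ A u) → C ↥(A u ⊔ Subgroup.zpowers g)

/-- the equivalence of a free factor of the normal closure with a vertex group -/
noncomputable def eBe (y : Ix Λ A U) : A y.1 ≃* Bf y :=
  MonoidHom.toMulEquiv (eB' y) (eB y)
    (by
      ext a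
      show (xr y)⁻¹ * (xr y * (a : G) * (xr y)⁻¹) * xr y = a
      group)
    (by
      ext a
      show xr y * ((xr y)⁻¹ * (a : G) * xr y) * (xr y)⁻¹ = a
      group)

theorem IsGraphProd.stepF (h : IsGraphProd N Λ A) [N.Normal] (hC : ClosedE C) (hF : FbC C)
    (hU : InvW N A U) (hind : ∀ u ∈ U, ∀ w ∈ U, ¬ Λ.Adj u w) (S : Set V)
    (hfr : ∀ u ∈ U, u ∉ S → IsFreeGroup (A u))
    (hp : ∀ u ∈ U, u ∈ S → ∀ g : G, ∃ w ∈ U, w ∈ S ∧ ∃ n ∈ N, ∀ x, x ∈ A u ↔
      n * (g * x * g⁻¹) * n⁻¹ ∈ A w)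
    (hB : FacC C A (U ∩ S))
    (hQ : C (G ⧸ Nc A U)) : C G := by
  refine main_all hC hF hQ (Bf : Ix Λ A U → Subgroup G) {y | (y.1 : V) ∈ S} (h.free hU hind)
    ?_ ?_ ?_
  · intro y hy
    have := hfr y.1 y.1.2 hy
    exact IsFreeGroup.ofMulEquiv (eBe y)
  · rintro ⟨u, c⟩ huS g
    obtain ⟨b, rfl⟩ := QuotientGroup.mk_surjective c
    obtain ⟨w, hw, hwS, n, hn, h1⟩ := hp u u.2 huS (g * b)
    obtain ⟨β, hβ⟩ : ∃ β, β = h.ret Uᶜ ⟨n⁻¹, N.inv_mem hn⟩ := ⟨_, rfl⟩
    refine ⟨⟨⟨w, hw⟩, QuotientGroup.mk β⟩, hwS, (β : G) * n, ?_, ?_⟩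
    · have h2 := h.mk_ret (U := U) (N.inv_mem hn)
      rw [← hβ] at h2
      refine (QuotientGroup.eq_one_iff _).1 ?_
      show QuotientGroup.mk' (Nc A U) ((β : G) * n) = 1
      rw [map_mul, h2, ← map_mul, inv_mul_cancel, map_one]
    · intro x
      rw [h.coset, h.coset, h1]
      have e1 : n * (g * (b : G) * ((b : G)⁻¹ * x * b) * (g * (b : G))⁻¹) * n⁻¹ =
          (β : G)⁻¹ * ((β : G) * n * (g * x * g⁻¹) * ((β : G) * n)⁻¹) * β := by group
      rw [e1]
  · intro y hyS g hg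
    obtain ⟨r, hr⟩ : ∃ r : G, r = xr y := ⟨_, rfl⟩
    have h1 : ∀ x, x ∈ A y.1 ↔ (r⁻¹ * g * r) * x * (r⁻¹ * g * r)⁻¹ ∈ A y.1 := by
      intro x
      have h2 := hg (r * x * r⁻¹)
      rw [mem_Bf, mem_Bf, ← hr] at h2
      have e1 : r⁻¹ * (r * x * r⁻¹) * r = x := by group
      have e2 : r⁻¹ * (g * (r * x * r⁻¹) * g⁻¹) * r = (r⁻¹ * g * r) * x * (r⁻¹ * g * r)⁻¹ := by group
      rwa [e1, e2] at h2
    have h3 := hB y.1 ⟨y.1.2, hyS⟩ _ h1
    refine cyc_real hC (Bf y) g hg ((Subgroup.inclusion (le_sup_left :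
      A y.1 ≤ A y.1 ⊔ Subgroup.zpowers (r⁻¹ * g * r))).comp (eB y)) ?_
      ⟨r⁻¹ * g * r, Subgroup.mem_sup_right (Subgroup.mem_zpowers _)⟩ ?_ h3
    · refine (Subgroup.inclusion_injective (le_sup_left :
        A y.1 ≤ A y.1 ⊔ Subgroup.zpowers (r⁻¹ * g * r))).comp ?_
      intro a b hab
      have h4 : (xr y)⁻¹ * (a : G) * xr y = (xr y)⁻¹ * (b : G) * xr y := congrArg Subtype.val hab
      apply Subtype.ext
      exact mul_left_cancel (mul_right_cancel h4)
    · intro x z hz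
      apply Subtype.ext
      show (xr y)⁻¹ * (z : G) * xr y = (r⁻¹ * g * r) * ((xr y)⁻¹ * (x : G) * xr y) *
        (r⁻¹ * g * r)⁻¹
      rw [hz, ← hr]
      group

theorem IsGraphProd.step (h : IsGraphProd N Λ A) [N.Normal] (hC : ClosedE C) (hF : FbC C)
    (hU : Inv N A U) (hind : ∀ u ∈ U, ∀ w ∈ U, ¬ Λ.Adj u w) (hB : FacC C A U)
    (hQ : C (G ⧸ Nc A U)) : C G := by
  refine h.stepF hC hF hU.toW hind Set.univ (fun u _ hu => absurd (Set.mem_univ u) hu) ?_
    (fun u hu => hB u hu.1) hQ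
  intro u hu _ g
  obtain ⟨w, hw, h1⟩ := hU u hu g
  exact ⟨w, hw, Set.mem_univ w, h1⟩

/-! ### the quotient -/

theorem IsGraphProd.mk_inj (h : IsGraphProd N Λ A) (hU : InvW N A U) {v : V} (hv : v ∉ U) {a b : G}
    (ha : a ∈ A v) (hb : b ∈ A v)
    (hab : QuotientGroup.mk' (Nc A U) a = QuotientGroup.mk' (Nc A U) b) : a = b := by
  have h1 : a⁻¹ * b ∈ Nc A U := QuotientGroup.eq.1 hab
  have h2 : a⁻¹ * b ∈ A v := (A v).mul_mem ((A v).inv_mem ha) hb
  have h3 := (h.mem_Nc_iff hU (h.le v h2)).1 h1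
  rw [h.ret_in (W := Uᶜ) (v := v) hv h2 (h.le v h2)] at h3
  have h4 : a⁻¹ * b = 1 := congrArg Subtype.val h3
  exact inv_mul_eq_one.1 h4

/-- the image of conjugate factors -/
theorem map_conj {A B : Subgroup G} {k : G} (h : ∀ x, x ∈ A ↔ k * x * k⁻¹ ∈ B) {H : Type} [Group H]
    (π : G →* H) (y : H) : y ∈ A.map π ↔ π k * y * (π k)⁻¹ ∈ B.map π := by
  constructor
  · rintro ⟨x, hx, rfl⟩
    exact ⟨_, (h x).1 hx, by rw [map_mul, map_mul, map_inv]⟩
  · rintro ⟨x, hx, hxy⟩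
    refine ⟨k⁻¹ * x * k, (h _).2 ?_, ?_⟩
    · have : k * (k⁻¹ * x * k) * k⁻¹ = x := by group
      rw [this]
      exact hx
    · rw [map_mul, map_mul, map_inv, hxy]
      group

/-- the retraction of an element which normalizes a factor -/
theorem IsGraphProd.ret_conj (h : IsGraphProd N Λ A) {v : V} {n : G} (hn : n ∈ N) {a : G}
    (ha : a ∈ A v) (hna : n * a * n⁻¹ ∈ A v) :
    n * a * n⁻¹ = (h.ret {v} ⟨n, hn⟩ : G) * a * (h.ret {v} ⟨n, hn⟩ : G)⁻¹ := by
  have h1 := h.ret_in (W := {v}) rfl hna (h.le v hna)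
  have h2 : (⟨n * a * n⁻¹, h.le v hna⟩ : N) = ⟨n, hn⟩ * ⟨a, h.le v ha⟩ * ⟨n, hn⟩⁻¹ := rfl
  rw [h2, map_mul, map_mul, map_inv, h.ret_in (W := {v}) rfl ha (h.le v ha)] at h1
  exact (congrArg Subtype.val h1).symm

/-- conjugate factors with different indices are trivial -/
theorem IsGraphProd.ne_triv (h : IsGraphProd N Λ A) {v w : V} (hvw : v ≠ w) {n : G} (hn : n ∈ N)
    {a : G} (ha : a ∈ A v) (hna : n * a * n⁻¹ ∈ A w) : a = 1 := by
  have h1 := h.ret_out (W := {w}) (v := v) (fun h => hvw h) ha (h.le v ha)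
  have h3 := h.ret_in (W := {w}) rfl hna (h.le w hna)
  have h2 : (⟨n * a * n⁻¹, h.le w hna⟩ : N) = ⟨n, hn⟩ * ⟨a, h.le v ha⟩ * ⟨n, hn⟩⁻¹ := rfl
  rw [h2, map_mul, map_mul, map_inv, h1, mul_one, mul_inv_cancel] at h3
  have h4 : 1 = n * a * n⁻¹ := congrArg Subtype.val h3
  have h5 : a = n⁻¹ * (n * a * n⁻¹) * n := by group
  rw [h5, ← h4]
  group

theorem Pb_singleton (A : V → Subgroup G) (v : V) : Pb A {v} = A v := by
  apply le_antisymm
  · refine iSup_le ?_
    rintro ⟨w, rfl⟩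
    exact le_rfl
  · exact le_Pb rfl

/-- homomorphisms which are compatible with the factors commute with the retractions -/
theorem IsGraphProd.ret_nat (h : IsGraphProd N Λ A) {G' V' : Type} [Group G'] {N' : Subgroup G'}
    {Λ' : SimpleGraph V'} {A' : V' → Subgroup G'} (h' : IsGraphProd N' Λ' A') {v : V} {v' : V'}
    (π : G →* G') (h1 : ∀ x ∈ A v, π x ∈ A' v')
    (h2 : ∀ w, w ≠ v → ∀ x ∈ A w, π x = 1 ∨ ∃ w', w' ≠ v' ∧ π x ∈ A' w') (n : N)
    (hn : π n ∈ N') : (h'.ret {v'} ⟨π n, hn⟩ : G') = π (h.ret {v} n : G) := by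
  have hle : ∀ n : N, π n ∈ N' := by
    have h3 : N ≤ N'.comap π := by
      rw [← h.sup]
      refine iSup_le fun w x hx => ?_
      rw [Subgroup.mem_comap]
      by_cases hw : w = v
      · subst hw
        exact h'.le _ (h1 x hx)
      · rcases h2 w hw x hx with h4 | ⟨w', -, h4⟩
        · rw [h4]
          exact N'.one_mem
        · exact h'.le _ h4
    exact fun n => h3 n.2
  let f : N →* N' := (π.comp N.subtype).codRestrict N' hle
  have h3 : ((Pb A' {v'}).subtype.comp (h'.ret {v'})).comp f = (π.comp (Pb A {v}).subtype).comp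
      (h.ret {v}) := by
    refine sup_hom_ext h.sup _ _ ?_
    intro w x hx hx'
    show ((h'.ret {v'}) ⟨π x, hle ⟨x, hx'⟩⟩ : G') = π (h.ret {v} ⟨x, hx'⟩ : G)
    by_cases hw : w = v
    · subst hw
      rw [h.ret_in (W := {w}) rfl hx hx', h'.ret_in (W := {v'}) rfl (h1 x hx)]
    · rw [h.ret_out (W := {v}) hw hx hx', OneMemClass.coe_one, map_one]
      rcases h2 w hw x hx with h4 | ⟨w', hw', h4⟩
      · have h5 : (⟨π x, hle ⟨x, hx'⟩⟩ : N') = 1 := Subtype.ext h4
        rw [h5, map_one, OneMemClass.coe_one]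
      · rw [h'.ret_out (W := {v'}) hw' h4, OneMemClass.coe_one]
  exact DFunLike.congr_fun h3 n

/-- the condition on the factors is inherited by the quotient -/
theorem IsGraphProd.facC_quot (h : IsGraphProd N Λ A) (hC : ClosedE C) (hU : InvW N A U)
    (hI : ∀ v, ∀ g : G, ∃ w, ∃ n ∈ N, ∀ x, x ∈ A v ↔ n * (g * x * g⁻¹) * n⁻¹ ∈ A w)
    (hB : FacC C A Set.univ) :
    FacC C (fun w : (Uᶜ : Set V) => (A w).map (QuotientGroup.mk' (Nc A U))) Set.univ := by
  rintro ⟨v, hv⟩ - g' hg'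
  obtain ⟨g, rfl⟩ := QuotientGroup.mk'_surjective _ g'
  obtain ⟨w, n, hn, h1⟩ := hI v g
  obtain ⟨π, hπ⟩ : ∃ π : G →* G ⧸ Nc A U, π = QuotientGroup.mk' (Nc A U) := ⟨_, rfl⟩
  have hq := h.quot hU
  rw [← hπ] at hg' hq ⊢
  have hv' : v ∉ U := hv
  have h1' : ∀ x, x ∈ A v ↔ (n * g) * x * (n * g)⁻¹ ∈ A w := by
    intro x
    rw [h1]
    have : n * (g * x * g⁻¹) * n⁻¹ = (n * g) * x * (n * g)⁻¹ := by group
    rw [this]
  -- the conjugation by `π n`
  have h2 : ∀ y : G ⧸ Nc A U, y ∈ (A v).map π → π n * y * (π n)⁻¹ ∈ (A w).map π := by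
    intro y hy
    have h3 : π g * ((π g)⁻¹ * y * π g) * (π g)⁻¹ = y := by group
    have h4 : (π g)⁻¹ * y * π g ∈ (A v).map π := (hg' _).2 (by rw [h3]; exact hy)
    have h5 := (map_conj h1' π _).1 h4
    have h6 : π (n * g) * ((π g)⁻¹ * y * π g) * (π (n * g))⁻¹ = π n * y * (π n)⁻¹ := by
      rw [map_mul]
      group
    rwa [h6] at h5
  by_cases hvw : w = v
  · subst hvw
    have hn' : π n ∈ N.map π := ⟨n, hn, rfl⟩
    obtain ⟨α, hα⟩ : ∃ α : G, α = h.ret {w} ⟨n, hn⟩ := ⟨_, rfl⟩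
    have hαw : α ∈ A w := by
      rw [← Pb_singleton A w, hα]
      exact (h.ret {w} ⟨n, hn⟩).2
    have hαn : (hq.ret {⟨w, hv⟩} ⟨π n, hn'⟩ : G ⧸ Nc A U) = π α := by
      rw [hα]
      refine IsGraphProd.ret_nat h hq π (fun x hx => ⟨x, hx, rfl⟩) ?_ ⟨n, hn⟩ hn'
      intro v hvw x hx
      by_cases hvU : v ∈ U
      · left
        rw [hπ]
        exact (QuotientGroup.eq_one_iff _).2 (le_Nc hvU hx)
      · right
        exact ⟨⟨v, hvU⟩, fun h => hvw (congrArg Subtype.val h), x, hx, rfl⟩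
    -- the action of `π g`
    have hact : ∀ a ∈ A w, ∀ b ∈ A w, π b = π g * π a * (π g)⁻¹ →
        b = (α⁻¹ * (n * g)) * a * (α⁻¹ * (n * g))⁻¹ := by
      intro a ha b hb hab
      have hc : (n * g) * a * (n * g)⁻¹ ∈ A w := (h1' a).1 ha
      have h3 : π n * π b * (π n)⁻¹ = π ((n * g) * a * (n * g)⁻¹) := by
        rw [hab]
        simp only [map_mul, map_inv]
        group
      have h4 := hq.ret_conj (v := ⟨w, hv⟩) hn' (a := π b) ⟨b, hb, rfl⟩ (by
        rw [h3]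
        exact ⟨_, hc, rfl⟩)
      rw [hαn, h3, ← map_inv, ← map_mul, ← map_mul] at h4
      have hb' : α * b * α⁻¹ ∈ A w := (A w).mul_mem ((A w).mul_mem hαw hb) ((A w).inv_mem hαw)
      have h5 := h.mk_inj hU hv' hc hb' (by rw [← hπ]; exact h4)
      have h6 : b = α⁻¹ * (α * b * α⁻¹) * α := by group
      rw [h6, ← h5]
      group
    have hC1 := hB w (Set.mem_univ _) (n * g) h1'
    have hinj : Function.Injective (π.subgroupMap (A w)) := by
      intro a b hab
      exact Subtype.ext (h.mk_inj hU hv' a.2 b.2 (by rw [← hπ]; exact congrArg Subtype.val hab))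
    let e : A w ≃* (A w).map π :=
      MulEquiv.ofBijective (π.subgroupMap (A w)) ⟨hinj, π.subgroupMap_surjective (A w)⟩
    refine cyc_real hC ((A w).map π) (π g) hg' ((Subgroup.inclusion (le_sup_left :
      A w ≤ A w ⊔ Subgroup.zpowers (n * g))).comp e.symm.toMonoidHom) ?_
      ⟨α⁻¹ * (n * g), Subgroup.mul_mem _ (Subgroup.mem_sup_left ((A w).inv_mem hαw))
        (Subgroup.mem_sup_right (Subgroup.mem_zpowers _))⟩ ?_ hC1
    · exact (Subgroup.inclusion_injective (le_sup_left :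
        A w ≤ A w ⊔ Subgroup.zpowers (n * g))).comp e.symm.injective
    · intro x y hxy
      obtain ⟨a, rfl⟩ := e.surjective x
      obtain ⟨b, rfl⟩ := e.surjective y
      apply Subtype.ext
      show (e.symm (e b) : G) = (α⁻¹ * (n * g)) * (e.symm (e a) : G) * (α⁻¹ * (n * g))⁻¹
      rw [e.symm_apply_apply, e.symm_apply_apply]
      exact hact a a.2 b b.2 hxy
  · -- the factor is trivial
    have htriv : ∀ a ∈ A v, a = 1 := by
      intro a ha
      by_cases hwU : w ∈ U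
      · have h3 := h2 (π a) ⟨a, ha, rfl⟩
        obtain ⟨b, hb, hb'⟩ := h3
        have h4 : π b = 1 := by
          rw [hπ]
          exact (QuotientGroup.eq_one_iff _).2 (le_Nc hwU hb)
        rw [h4] at hb'
        have h5 : π a = π 1 := by
          rw [map_one]
          have h6 : π a = (π n)⁻¹ * (π n * π a * (π n)⁻¹) * π n := by group
          rw [h6, ← hb']
          group
        exact h.mk_inj hU hv' ha (Subgroup.one_mem _) (by rw [← hπ]; exact h5)
      · have h3 := h2 (π a) ⟨a, ha, rfl⟩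
        have h4 := hq.ne_triv (v := ⟨v, hv⟩) (w := ⟨w, hwU⟩)
          (fun h => hvw (congrArg Subtype.val h).symm) (n := π n) ⟨n, hn, rfl⟩ (a := π a)
          ⟨a, ha, rfl⟩ h3
        exact h.mk_inj hU hv' ha (Subgroup.one_mem _) (by rw [← hπ, h4, map_one])
    have h3 : (A v).map π = ⊥ := by
      rw [eq_bot_iff]
      rintro _ ⟨a, ha, rfl⟩
      rw [htriv a ha, map_one]
      exact Subgroup.one_mem _
    show C ↥((A v).map π ⊔ Subgroup.zpowers (π g))
    rw [h3, bot_sup_eq]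
    exact C_cyc hC.base _

/-- conjugation permutes the `N`-classes of the factors with the same colour -/
def Perm (N : Subgroup G) (A : V → Subgroup G) (c : V → ℕ) : Prop :=
  ∀ (v : V) (g : G), ∃ w, c w = c v ∧ ∃ n ∈ N, ∀ x, x ∈ A v ↔ n * (g * x * g⁻¹) * n⁻¹ ∈ A w

/-- **the case of finitely many colours** -/
theorem core (hC : ClosedE C) (hF : FbC C) (k : ℕ) : ∀ {G V : Type} [Group G] {N : Subgroup G}
    [N.Normal] {Λ : SimpleGraph V} {A : V → Subgroup G}, IsGraphProd N Λ A → ∀ c : V → ℕ,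
    (∀ v, c v < k) → (∀ v w, c v = c w → ¬ Λ.Adj v w) → Perm N A c → FacC C A Set.univ →
    C (G ⧸ N) → C G := by
  induction k with
  | zero =>
    intro G V _ N _ Λ A h c hc _ _ _ hQ
    have hN : N = ⊥ := by
      rw [← h.sup, eq_bot_iff]
      exact iSup_le fun v => absurd (hc v) (Nat.not_lt_zero _)
    refine hC.base.of_injective G (G ⧸ N) (QuotientGroup.mk' N) ?_ hQ
    rw [injective_iff_map_eq_one]
    intro x hx
    have h1 : x ∈ N := (QuotientGroup.eq_one_iff x).1 hx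
    rwa [hN, Subgroup.mem_bot] at h1
  | succ k ih =>
    intro G V _ N _ Λ A h c hc hind hp hB hQ
    obtain ⟨U, hU⟩ : ∃ U : Set V, U = {v | c v = k} := ⟨_, rfl⟩
    have hUm : ∀ v, v ∈ U ↔ c v = k := fun v => by rw [hU]; rfl
    have hInv : Inv N A U := by
      intro u hu g
      obtain ⟨w, hw, h1⟩ := hp u g
      exact ⟨w, (hUm w).2 (hw.trans ((hUm u).1 hu)), h1⟩
    have hNn : (N.map (QuotientGroup.mk' (Nc A U))).Normal :=
      Subgroup.Normal.map inferInstance _ (QuotientGroup.mk'_surjective _)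
    refine h.step hC hF hInv (fun u hu w hw => hind u w (((hUm u).1 hu).trans ((hUm w).1 hw).symm))
      (fun u _ => hB u (Set.mem_univ u)) ?_
    refine ih (h.quot hInv.toW) (fun v => c v) ?_ ?_ ?_ ?_ ?_
    · rintro ⟨v, hv⟩
      have h1 : c v ≠ k := fun h => hv ((hUm v).2 h)
      have h2 := hc v
      show c v < k
      omega
    · intro v w hvw hadj
      exact hind v w hvw hadj
    · rintro ⟨v, hv⟩ g'
      obtain ⟨g, rfl⟩ := QuotientGroup.mk'_surjective _ g'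
      obtain ⟨w, hw, n, hn, h1⟩ := hp v g
      refine ⟨⟨w, fun hwU => hv ((hUm v).2 (hw.symm.trans ((hUm w).1 hwU)))⟩, hw,
        QuotientGroup.mk' _ n, ⟨n, hn, rfl⟩, ?_⟩
      intro x
      have h2 := map_conj (A := A v) (B := A w) (k := n * g) (by
        intro x
        rw [h1]
        have : n * (g * x * g⁻¹) * n⁻¹ = (n * g) * x * (n * g)⁻¹ := by group
        rw [this]) (QuotientGroup.mk' (Nc A U)) x
      have h3 : QuotientGroup.mk' (Nc A U) (n * g) * x * (QuotientGroup.mk' (Nc A U) (n * g))⁻¹ =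
          QuotientGroup.mk' (Nc A U) n * (QuotientGroup.mk' (Nc A U) g * x *
            (QuotientGroup.mk' (Nc A U) g)⁻¹) * (QuotientGroup.mk' (Nc A U) n)⁻¹ := by
        rw [map_mul]
        group
      rw [h3] at h2
      exact h2
    · refine h.facC_quot hC hInv.toW ?_ hB
      intro v g
      obtain ⟨w, -, h1⟩ := hp v g
      exact ⟨w, h1⟩
    · exact C_equiv hC.base (QuotientGroup.quotientQuotientEquivQuotient (Nc A U) N (Nc_le h.le)) hQ

end Pool.Agent.D0H25.GK
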